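import Pool.Agent.Cohn.Sums

/-!
The primes `p` with `gcd(p - 1, n) > 1` and their density.
-/

set_option autoImplicit false

open Filter Topology Finset

namespace Pool.Agent.Cohn

/-- The residues `a` prime to `n` with `gcd(a - 1, n) > 1`. -/
def badRes (n : ℕ) : Finset ℕ :=
  (range n).filter fun a => Nat.Coprime a n ∧ ¬ Nat.Coprime (a + n - 1) n

/-- The density of the primes `p` with `gcd(p - 1, n) > 1`. -/
noncomputable def dens (n : ℕ) : ℝ := (badRes n).card / (Nat.totient n : ℝ)

/-- Primes in the classes `badRes n`. -/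
def Hn (n p : ℕ) : Prop := p.Prime ∧ p % n ∈ badRes n

instance (n : ℕ) : DecidablePred (Hn n) := fun _ => inferInstanceAs (Decidable (_ ∧ _))

/-- Primes in a class. -/
def Hc (n a p : ℕ) : Prop := p.Prime ∧ p % n = a % n

instance (n a : ℕ) : DecidablePred (Hc n a) := fun _ => inferInstanceAs (Decidable (_ ∧ _))

lemma Hn_iff {n p : ℕ} (hn : 0 < n) (hp : p.Prime) :
    Hn n p ↔ ¬ p ∣ n ∧ ¬ Nat.Coprime (p - 1) n := by
  unfold Hn badRes
  rw [Finset.mem_filter, Finset.mem_range]
  have h1 : p % n < n := Nat.mod_lt _ hn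
  have h2 : Nat.Coprime (p % n) n ↔ ¬ p ∣ n := by
    rw [← Nat.Prime.coprime_iff_not_dvd hp]
    unfold Nat.Coprime
    rw [Nat.gcd_comm p n, Nat.gcd_rec n p]
  have h3 : Nat.Coprime (p % n + n - 1) n ↔ Nat.Coprime (p - 1) n := by
    have e : p % n + n - 1 + n * (p / n) = p - 1 + n := by
      have := Nat.mod_add_div p n
      have := hp.one_lt
      omega
    have e1 : Nat.Coprime (p % n + n - 1 + n * (p / n)) n ↔ Nat.Coprime (p % n + n - 1) n :=
      Nat.coprime_add_mul_left_left _ _ _
    have e2 : Nat.Coprime (p - 1 + n) n ↔ Nat.Coprime (p - 1) n :=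
      Nat.coprime_add_self_left
    rw [← e1, e, e2]
  rw [h2, h3]
  exact ⟨fun h => h.2.2, fun h => ⟨hp, h1, h⟩⟩

lemma th_class_tendsto {n a : ℕ} (hn : 0 < n) (ha : Nat.Coprime a n) :
    Tendsto (fun N : ℕ => th (Hc n a) N / N) atTop (𝓝 (1 / (Nat.totient n : ℝ))) := by
  have h1 := (PC.PNT.th_tendsto n a hn ha).comp (tendsto_add_atTop_nat 1)
  have h2 : Tendsto (fun N : ℕ => ((N : ℝ) + 1) / N) atTop (𝓝 1) := by
    have h3 : Tendsto (fun N : ℕ => (1 : ℝ) + 1 / N) atTop (𝓝 (1 + 0)) :=
      tendsto_const_nhds.add tendsto_one_div_atTop_nhds_zero_nat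
    rw [add_zero] at h3
    refine h3.congr' ?_
    filter_upwards [eventually_gt_atTop 0] with N hN
    have : (0 : ℝ) < N := by exact_mod_cast hN
    field_simp
  have h4 := h1.mul h2
  rw [mul_one] at h4
  refine h4.congr fun N => ?_
  simp only [Function.comp]
  have h5 : PC.PNT.th n a (N + 1) = th (Hc n a) N := by
    unfold PC.PNT.th th
    rw [← Finset.sum_filter]
    refine Finset.sum_congr ?_ fun _ _ => rfl
    ext p
    rw [Finset.mem_filter, Finset.mem_filter, Finset.mem_range, Finset.mem_Ioc]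
    constructor
    · rintro ⟨h, h'⟩
      exact ⟨⟨h'.1.pos, by omega⟩, h'⟩
    · rintro ⟨h, h'⟩
      exact ⟨by omega, h'⟩
  rw [h5]
  have h6 : ((N + 1 : ℕ) : ℝ) ≠ 0 := by positivity
  push_cast at h6 ⊢
  field_simp

lemma th_bad_tendsto {n : ℕ} (hn : 0 < n) :
    Tendsto (fun N : ℕ => th (Hn n) N / N) atTop (𝓝 (dens n)) := by
  have h1 : Tendsto (fun N : ℕ => ∑ a ∈ badRes n, th (Hc n a) N / N) atTop
      (𝓝 (∑ a ∈ badRes n, 1 / (Nat.totient n : ℝ))) := by
    refine tendsto_finsetSum _ fun a ha => th_class_tendsto hn ?_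
    unfold badRes at ha
    exact (Finset.mem_filter.1 ha).2.1
  have h2 : ∑ a ∈ badRes n, 1 / (Nat.totient n : ℝ) = dens n := by
    rw [Finset.sum_const, nsmul_eq_mul, mul_one_div]
    rfl
  rw [h2] at h1
  refine h1.congr fun N => ?_
  rw [← Finset.sum_div]
  congr 1
  unfold th
  rw [Finset.sum_comm]
  refine Finset.sum_congr rfl fun p _ => ?_
  by_cases hp : p.Prime
  · by_cases hm : p % n ∈ badRes n
    · rw [if_pos ⟨hp, hm⟩, Finset.sum_eq_single (p % n)]
      · rw [if_pos]
        exact ⟨hp, (Nat.mod_mod _ _).symm⟩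
      · intro a ha hne
        rw [if_neg]
        rintro ⟨-, h⟩
        have ha' : a < n := Finset.mem_range.1 (Finset.mem_filter.1 ha).1
        rw [Nat.mod_eq_of_lt ha'] at h
        exact hne h.symm
      · intro h
        exact absurd hm h
    · rw [if_neg (fun h => hm h.2)]
      refine Finset.sum_eq_zero fun a ha => ?_
      rw [if_neg]
      rintro ⟨-, h⟩
      have ha' : a < n := Finset.mem_range.1 (Finset.mem_filter.1 ha).1
      rw [Nat.mod_eq_of_lt ha'] at h
      exact hm (h ▸ ha)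
  · rw [if_neg (fun h => hp h.1)]
    exact Finset.sum_eq_zero fun a _ => if_neg fun h => hp h.1

lemma dens_prime {n : ℕ} (hn : n.Prime) : dens n = 1 / ((n : ℝ) - 1) := by
  have h1 : badRes n = {1} := by
    ext a
    unfold badRes
    rw [Finset.mem_filter, Finset.mem_range, Finset.mem_singleton]
    constructor
    · rintro ⟨h, h2, h3⟩
      rw [Nat.coprime_comm, hn.coprime_iff_not_dvd, not_not] at h3
      have ha0 : a ≠ 0 := by
        rintro rfl
        rw [Nat.coprime_zero_left] at h2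
        exact hn.one_lt.ne' h2
      have h4 : n ∣ a - 1 := by
        have : a + n - 1 = (a - 1) + n := by omega
        rw [this] at h3
        exact (Nat.dvd_add_left (dvd_refl n)).1 h3
      have h5 := Nat.eq_zero_of_dvd_of_lt h4 (by omega)
      omega
    · rintro rfl
      refine ⟨hn.one_lt, Nat.coprime_one_left n, ?_⟩
      rw [Nat.coprime_comm, hn.coprime_iff_not_dvd, not_not]
      have : 1 + n - 1 = n := by omega
      rw [this]
  unfold dens
  rw [h1, Finset.card_singleton, Nat.totient_prime hn, Nat.cast_sub hn.one_lt.le]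
  simp

lemma dens_nonneg (n : ℕ) : 0 ≤ dens n := by
  unfold dens
  positivity

lemma not_Hn_one (n : ℕ) : ¬ Hn n 1 := fun h => Nat.not_prime_one h.1

end Pool.Agent.Cohn
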