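import Mathlib

/-!
Counting integers with prescribed residues to coprime moduli.
-/

set_option autoImplicit false

open Finset

namespace Pool.Agent.Cohn

/-- The number of `c ≤ L` with residues in given sets. -/
lemma crt_count (P : Finset ℕ) (q : ℕ → ℕ) (hq : ∀ p ∈ P, 0 < q p)
    (hco : ∀ p ∈ P, ∀ p' ∈ P, p ≠ p' → Nat.Coprime (q p) (q p')) (R : ℕ → Finset ℕ) (L : ℕ) :
    (((Icc 1 L).filter fun c => ∀ p ∈ P, c % q p ∈ R p).card) ≤
      (L / ∏ p ∈ P, q p + 1) * ∏ p ∈ P, (R p).card := by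
  classical
  set N := ∏ p ∈ P, q p with hN
  have hN0 : 0 < N := Finset.prod_pos hq
  have h1 : ((range (L / N + 1)) ×ˢ (P.pi R)).card = (L / N + 1) * ∏ p ∈ P, (R p).card := by
    rw [Finset.card_product, Finset.card_range, Finset.card_pi]
  rw [← h1]
  refine Finset.card_le_card_of_injOn (fun c => ((c - 1) / N, fun p _ => c % q p)) ?_ ?_
  · intro c hc
    have hc' := Finset.mem_filter.1 hc
    have hc2 := Finset.mem_Icc.1 hc'.1
    refine Finset.mem_coe.2 (Finset.mem_product.2 ⟨?_, ?_⟩)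
    · show (c - 1) / N ∈ range (L / N + 1)
      rw [Finset.mem_range, Nat.lt_succ_iff]
      exact Nat.div_le_div_right (by omega)
    · show (fun p _ => c % q p) ∈ P.pi R
      rw [Finset.mem_pi]
      exact hc'.2
  · intro c hc c' hc' h
    have hc1 := Finset.mem_Icc.1 (Finset.mem_filter.1 hc).1
    have hc2 := Finset.mem_Icc.1 (Finset.mem_filter.1 hc').1
    simp only [Prod.mk.injEq] at h
    obtain ⟨h2, h3⟩ := h
    have h4 : ∀ p ∈ P, ((q p : ℕ) : ℤ) ∣ (c : ℤ) - c' := by
      intro p hp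
      have h5 : c % q p = c' % q p := by
        have := congrFun (congrFun h3 p) hp
        exact this
      have h6 : c' ≡ c [MOD q p] := h5.symm
      exact (Nat.modEq_iff_dvd.1 h6)
    have h7 : ((N : ℕ) : ℤ) ∣ (c : ℤ) - c' := by
      rw [hN, Nat.cast_prod]
      refine Finset.prod_dvd_of_coprime ?_ h4
      intro p hp p' hp' hne
      exact Nat.isCoprime_iff_coprime.2 (hco p hp p' hp' hne)
    have h8 := Nat.div_add_mod (c - 1) N
    have h9 := Nat.div_add_mod (c' - 1) N
    have h10 := Nat.mod_lt (c - 1) hN0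
    have h11 := Nat.mod_lt (c' - 1) hN0
    obtain ⟨k, hk⟩ := h7
    have h12 : ((c : ℤ) - c') = ((c - 1) % N : ℕ) - ((c' - 1) % N : ℕ) := by
      rw [h2] at h8
      omega
    have h13 : |(N : ℤ) * k| < N := by
      rw [← hk, h12, abs_lt]
      constructor <;> omega
    have h14 : k = 0 := by
      by_contra hk0
      have h15 : 1 ≤ |k| := Int.one_le_abs hk0
      rw [abs_mul, Nat.abs_cast] at h13
      have hNz : (0 : ℤ) < N := by exact_mod_cast hN0
      nlinarith
    rw [h14, mul_zero] at hk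
    omega

end Pool.Agent.Cohn
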