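import Pool.Agent.Cohn.Sums

/-!
Integers `b` such that `b - 1` has a large squarefree divisor composed of primes of a set `H`.
-/

set_option autoImplicit false

open Filter Topology Finset

namespace Pool.Agent.Cohn

lemma card_dvd_le (X d : ℕ) :
    (((Icc 2 X).filter fun b => d ∣ b - 1).card : ℝ) ≤ (X : ℝ) / d := by
  have h1 : ((Icc 2 X).filter fun b => d ∣ b - 1).card ≤ ((Ioc 0 X).filter fun x => d ∣ x).card := by
    refine Finset.card_le_card_of_injOn (fun b => b - 1) ?_ ?_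
    · intro b hb
      have hb' := Finset.mem_filter.1 hb
      have h2 := Finset.mem_Icc.1 hb'.1
      refine Finset.mem_filter.2 ⟨Finset.mem_Ioc.2 ⟨?_, ?_⟩, hb'.2⟩
      · show 0 < b - 1
        omega
      · show b - 1 ≤ X
        omega
    · intro b hb c hc h
      have hb' := Finset.mem_Icc.1 (Finset.mem_filter.1 hb).1
      have hc' := Finset.mem_Icc.1 (Finset.mem_filter.1 hc).1
      simp only at h
      omega
  rw [Nat.Ioc_filter_dvd_card_eq_div] at h1
  calc (((Icc 2 X).filter fun b => d ∣ b - 1).card : ℝ) ≤ ((X / d : ℕ) : ℝ) := by exact_mod_cast h1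
    _ ≤ (X : ℝ) / d := Nat.cast_div_le

variable {H : ℕ → Prop} [DecidablePred H]

/-- The numbers `b` with a prime of `H` in `(Y, X]` dividing `b - 1`. -/
lemma D1_le (X Y : ℕ) :
    (((Icc 2 X).filter fun b => ∃ p ∈ Ioc Y X, H p ∧ p ∣ b - 1).card : ℝ) ≤
      X * ∑ p ∈ Ioc Y X, (if H p then (1 : ℝ) / p else 0) := by
  classical
  have h1 : ((Icc 2 X).filter fun b => ∃ p ∈ Ioc Y X, H p ∧ p ∣ b - 1) ⊆
      ((Ioc Y X).filter H).biUnion fun p => (Icc 2 X).filter fun b => p ∣ b - 1 := by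
    intro b hb
    obtain ⟨hb1, p, hp, hH, hd⟩ := Finset.mem_filter.1 hb
    exact Finset.mem_biUnion.2 ⟨p, Finset.mem_filter.2 ⟨hp, hH⟩, Finset.mem_filter.2 ⟨hb1, hd⟩⟩
  calc (((Icc 2 X).filter fun b => ∃ p ∈ Ioc Y X, H p ∧ p ∣ b - 1).card : ℝ)
      ≤ ((((Ioc Y X).filter H).biUnion fun p => (Icc 2 X).filter fun b => p ∣ b - 1).card : ℝ) := by
        exact_mod_cast Finset.card_le_card h1
    _ ≤ ∑ p ∈ (Ioc Y X).filter H, (((Icc 2 X).filter fun b => p ∣ b - 1).card : ℝ) := by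
        exact_mod_cast Finset.card_biUnion_le
    _ ≤ ∑ p ∈ (Ioc Y X).filter H, (X : ℝ) / p := Finset.sum_le_sum fun p _ => card_dvd_le X p
    _ = X * ∑ p ∈ Ioc Y X, (if H p then (1 : ℝ) / p else 0) := by
        rw [Finset.mul_sum, Finset.sum_filter]
        refine Finset.sum_congr rfl fun p _ => ?_
        split_ifs <;> ring

/-- The sum of `log p` over the primes of `H` up to `Y` dividing `b - 1`. -/
noncomputable def LS (H : ℕ → Prop) [DecidablePred H] (Y b : ℕ) : ℝ :=
  ∑ p ∈ (Ioc 0 Y).filter H, if p ∣ b - 1 then Real.log p else 0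

/-- The second moment. -/
lemma D2_moment (hp : ∀ p, H p → p.Prime) (X Y : ℕ) :
    ∑ b ∈ Icc 2 X, (LS H Y b) ^ 2 ≤
      X * (∑ p ∈ (Ioc 0 Y).filter H, (Real.log p) ^ 2 / p +
        (∑ p ∈ (Ioc 0 Y).filter H, Real.log p / p) ^ 2) := by
  set P := (Ioc 0 Y).filter H with hP
  have hlog : ∀ p ∈ P, 0 ≤ Real.log p := fun p hpP =>
    Real.log_nonneg (by exact_mod_cast (hp p (Finset.mem_filter.1 hpP).2).one_lt.le)
  have h1 : ∑ b ∈ Icc 2 X, (LS H Y b) ^ 2 =
      ∑ p ∈ P, ∑ q ∈ P, Real.log p * Real.log q *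
        (((Icc 2 X).filter fun b => p ∣ b - 1 ∧ q ∣ b - 1).card : ℝ) := by
    have h2 : ∀ b, (LS H Y b) ^ 2 = ∑ p ∈ P, ∑ q ∈ P,
        Real.log p * Real.log q * (if p ∣ b - 1 ∧ q ∣ b - 1 then (1 : ℝ) else 0) := by
      intro b
      unfold LS
      rw [sq, Finset.sum_mul_sum]
      refine Finset.sum_congr rfl fun p _ => Finset.sum_congr rfl fun q _ => ?_
      by_cases h3 : p ∣ b - 1
      · by_cases h4 : q ∣ b - 1
        · rw [if_pos h3, if_pos h4, if_pos ⟨h3, h4⟩, mul_one]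
        · rw [if_pos h3, if_neg h4, if_neg (fun h : p ∣ b - 1 ∧ q ∣ b - 1 => h4 h.2), mul_zero,
            mul_zero]
      · rw [if_neg h3, if_neg (fun h : p ∣ b - 1 ∧ q ∣ b - 1 => h3 h.1), zero_mul, mul_zero]
    simp only [h2]
    rw [Finset.sum_comm]
    refine Finset.sum_congr rfl fun p _ => ?_
    rw [Finset.sum_comm]
    refine Finset.sum_congr rfl fun q _ => ?_
    rw [← Finset.mul_sum, Finset.sum_ite, Finset.sum_const_zero, add_zero, Finset.sum_const,
      nsmul_eq_mul, mul_one]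
  rw [h1]
  have h3 : ∀ p ∈ P, ∀ q ∈ P, Real.log p * Real.log q *
      (((Icc 2 X).filter fun b => p ∣ b - 1 ∧ q ∣ b - 1).card : ℝ) ≤
      X * ((if p = q then (Real.log p) ^ 2 / p else 0) + Real.log p / p * (Real.log q / q)) := by
    intro p hpP q hqP
    have hp' := hp p (Finset.mem_filter.1 hpP).2
    have hq' := hp q (Finset.mem_filter.1 hqP).2
    have hp0 : (0 : ℝ) < p := by exact_mod_cast hp'.pos
    have hq0 : (0 : ℝ) < q := by exact_mod_cast hq'.pos
    have lp := hlog p hpP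
    have lq := hlog q hqP
    split_ifs with hpq
    · subst hpq
      have h4 : (((Icc 2 X).filter fun b => p ∣ b - 1 ∧ p ∣ b - 1).card : ℝ) ≤ (X : ℝ) / p := by
        simp only [and_self]
        exact card_dvd_le X p
      calc Real.log p * Real.log p * (((Icc 2 X).filter fun b => p ∣ b - 1 ∧ p ∣ b - 1).card : ℝ)
          ≤ Real.log p * Real.log p * ((X : ℝ) / p) :=
            mul_le_mul_of_nonneg_left h4 (mul_nonneg lp lp)
        _ = X * ((Real.log p) ^ 2 / p) := by ring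
        _ ≤ X * ((Real.log p) ^ 2 / p + Real.log p / p * (Real.log p / p)) := by
            apply mul_le_mul_of_nonneg_left _ (Nat.cast_nonneg X)
            have : 0 ≤ Real.log p / p * (Real.log p / p) := by positivity
            linarith
    · have h4 : (((Icc 2 X).filter fun b => p ∣ b - 1 ∧ q ∣ b - 1).card : ℝ) ≤
          (X : ℝ) / (p * q : ℕ) := by
        refine le_trans ?_ (card_dvd_le X (p * q))
        have : ((Icc 2 X).filter fun b => p ∣ b - 1 ∧ q ∣ b - 1) ⊆
            ((Icc 2 X).filter fun b => p * q ∣ b - 1) := by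
          intro b hb
          obtain ⟨h5, h6, h7⟩ := Finset.mem_filter.1 hb
          refine Finset.mem_filter.2 ⟨h5, ?_⟩
          exact Nat.Coprime.mul_dvd_of_dvd_of_dvd ((Nat.coprime_primes hp' hq').2 hpq) h6 h7
        exact_mod_cast Finset.card_le_card this
      calc Real.log p * Real.log q * (((Icc 2 X).filter fun b => p ∣ b - 1 ∧ q ∣ b - 1).card : ℝ)
          ≤ Real.log p * Real.log q * ((X : ℝ) / (p * q : ℕ)) :=
            mul_le_mul_of_nonneg_left h4 (mul_nonneg lp lq)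
        _ = X * (0 + Real.log p / p * (Real.log q / q)) := by
            push_cast
            field_simp
            ring
  refine (Finset.sum_le_sum fun p hpP => Finset.sum_le_sum fun q hqP => h3 p hpP q hqP).trans
    (le_of_eq ?_)
  rw [sq, Finset.sum_mul_sum, ← Finset.sum_add_distrib, Finset.mul_sum]
  refine Finset.sum_congr rfl fun p hpP => ?_
  rw [← Finset.mul_sum, Finset.sum_add_distrib, Finset.sum_ite_eq, if_pos hpP]

/-- The numbers with a large squarefree divisor. -/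
def DS (H : ℕ → Prop) (θ : ℝ) (X b : ℕ) : Prop :=
  ∃ r : ℕ, Squarefree r ∧ r ∣ b - 1 ∧ (∀ p : ℕ, p.Prime → p ∣ r → H p) ∧ (X : ℝ) ^ θ ≤ r

open Classical in
lemma D_bound {A : ℝ} (hlim : Tendsto (fun N : ℕ => th H N / N) atTop (𝓝 A)) (h1 : ¬ H 1)
    (hp : ∀ p, H p → p.Prime) {θ : ℝ} (h0 : 0 < θ) (hθ1 : θ < 1) {ε : ℝ}
    (hε : 0 < ε) :
    ∀ᶠ X : ℕ in atTop, (((Icc 2 X).filter fun b => DS H θ X b).card : ℝ) ≤
      (A * Real.log (1 / θ) + A / 2 + A ^ 2 + ε) * X := by
  -- the choice of the small parameter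
  obtain ⟨η, hη0, hη⟩ : ∃ η : ℝ, 0 < η ∧ η + (η + 2 * (A * θ) * η + η ^ 2) / θ ^ 2 ≤ ε := by
    have hc : Tendsto (fun η : ℝ => η + (η + 2 * (A * θ) * η + η ^ 2) / θ ^ 2) (𝓝 0)
        (𝓝 (0 + (0 + 2 * (A * θ) * 0 + 0 ^ 2) / θ ^ 2)) := by
      apply Continuous.tendsto
      fun_prop
    have e : (0 + (0 + 2 * (A * θ) * 0 + 0 ^ 2) / θ ^ 2) = (0 : ℝ) := by simp
    rw [e] at hc
    have hc' := hc.mono_left (nhdsWithin_le_nhds (s := Set.Ioi (0 : ℝ)))
    obtain ⟨η, h2, h3⟩ := ((hc'.eventually (ge_mem_nhds hε)).and self_mem_nhdsWithin).exists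
    exact ⟨η, h3, h2⟩
  filter_upwards [T0_bound hlim h1 h0 hθ1 hη0, T1_bound hlim h1 h0 hη0, T2_bound hlim h1 h0 hη0,
    eventually_gt_atTop 1] with X hT0 hT1 hT2 hX1
  have hX1' : (1 : ℝ) < X := by exact_mod_cast hX1
  have hX0 : (0 : ℝ) < X := by linarith
  have hlX : 0 < Real.log X := Real.log_pos hX1'
  set Y : ℕ := ⌊(X : ℝ) ^ θ⌋₊ with hY
  have hsub : ((Icc 2 X).filter fun b => DS H θ X b) ⊆
      ((Icc 2 X).filter fun b => ∃ p ∈ Ioc Y X, H p ∧ p ∣ b - 1) ∪
      ((Icc 2 X).filter fun b => θ * Real.log X ≤ LS H Y b) := by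
    intro b hb
    obtain ⟨hb1, r, hr, hrb, hrH, hrX⟩ := Finset.mem_filter.1 hb
    have hb2 := Finset.mem_Icc.1 hb1
    have hb0 : 0 < b - 1 := by omega
    rw [Finset.mem_union]
    by_cases hbig : ∃ p ∈ Ioc Y X, H p ∧ p ∣ b - 1
    · exact Or.inl (Finset.mem_filter.2 ⟨hb1, hbig⟩)
    · right
      refine Finset.mem_filter.2 ⟨hb1, ?_⟩
      have hr0 : r ≠ 0 := hr.ne_zero
      have h2 : θ * Real.log X ≤ Real.log r := by
        rw [← Real.log_rpow hX0]
        exact Real.log_le_log (by positivity) hrX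
      have h3 : Real.log r = ∑ p ∈ r.primeFactors, Real.log p := by
        have h4 := Nat.prod_primeFactors_of_squarefree hr
        have h5 : (r : ℝ) = ∏ p ∈ r.primeFactors, (p : ℝ) := by
          rw [← Nat.cast_prod, h4]
        rw [h5, Real.log_prod]
        intro p hpr
        have := (Nat.prime_of_mem_primeFactors hpr).pos
        positivity
      have h4 : ∑ p ∈ r.primeFactors, Real.log p ≤ LS H Y b := by
        unfold LS
        have h5 : r.primeFactors ⊆ ((Ioc 0 Y).filter H) := by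
          intro p hpr
          have hpp := Nat.prime_of_mem_primeFactors hpr
          have hpr' := Nat.dvd_of_mem_primeFactors hpr
          have hpb : p ∣ b - 1 := hpr'.trans hrb
          have hle : p ≤ b - 1 := Nat.le_of_dvd hb0 hpb
          refine Finset.mem_filter.2 ⟨Finset.mem_Ioc.2 ⟨hpp.pos, ?_⟩, hrH p hpp hpr'⟩
          by_contra hlt
          push Not at hlt
          exact hbig ⟨p, Finset.mem_Ioc.2 ⟨hlt, by omega⟩, hrH p hpp hpr', hpb⟩
        calc ∑ p ∈ r.primeFactors, Real.log p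
            = ∑ p ∈ r.primeFactors, (if p ∣ b - 1 then Real.log p else 0) := by
              refine Finset.sum_congr rfl fun p hpr => ?_
              rw [if_pos ((Nat.dvd_of_mem_primeFactors hpr).trans hrb)]
          _ ≤ ∑ p ∈ (Ioc 0 Y).filter H, (if p ∣ b - 1 then Real.log p else 0) := by
              refine Finset.sum_le_sum_of_subset_of_nonneg h5 fun p hpP _ => ?_
              split_ifs
              · exact Real.log_nonneg (by
                  exact_mod_cast (hp p (Finset.mem_filter.1 hpP).2).one_lt.le)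
              · exact le_rfl
      linarith
  have hc1 : (((Icc 2 X).filter fun b => DS H θ X b).card : ℝ) ≤
      (((Icc 2 X).filter fun b => ∃ p ∈ Ioc Y X, H p ∧ p ∣ b - 1).card : ℝ) +
      (((Icc 2 X).filter fun b => θ * Real.log X ≤ LS H Y b).card : ℝ) := by
    exact_mod_cast (Finset.card_le_card hsub).trans (Finset.card_union_le _ _)
  have hc2 := D1_le (H := H) X Y
  -- the second part
  have hc3 : (θ * Real.log X) ^ 2 *
      (((Icc 2 X).filter fun b => θ * Real.log X ≤ LS H Y b).card : ℝ) ≤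
      X * (∑ p ∈ (Ioc 0 Y).filter H, (Real.log p) ^ 2 / p +
        (∑ p ∈ (Ioc 0 Y).filter H, Real.log p / p) ^ 2) := by
    refine le_trans ?_ (D2_moment hp X Y)
    calc (θ * Real.log X) ^ 2 * (((Icc 2 X).filter fun b => θ * Real.log X ≤ LS H Y b).card : ℝ)
        = ∑ b ∈ (Icc 2 X).filter (fun b => θ * Real.log X ≤ LS H Y b), (θ * Real.log X) ^ 2 := by
          rw [Finset.sum_const, nsmul_eq_mul, mul_comm]
      _ ≤ ∑ b ∈ (Icc 2 X).filter (fun b => θ * Real.log X ≤ LS H Y b), (LS H Y b) ^ 2 := by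
          refine Finset.sum_le_sum fun b hb => ?_
          exact pow_le_pow_left₀ (by positivity) (Finset.mem_filter.1 hb).2 2
      _ ≤ ∑ b ∈ Icc 2 X, (LS H Y b) ^ 2 :=
          Finset.sum_le_sum_of_subset_of_nonneg (Finset.filter_subset _ _) fun _ _ _ => sq_nonneg _
  have e1 : ∑ p ∈ (Ioc 0 Y).filter H, (Real.log p) ^ 2 / p =
      (Real.log X) ^ 2 * ∑ p ∈ Ioc 0 Y, (if H p then (Real.log p) ^ 2 / p / (Real.log X) ^ 2 else 0) := by
    rw [Finset.sum_filter, Finset.mul_sum]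
    refine Finset.sum_congr rfl fun p _ => ?_
    split_ifs
    · field_simp
    · simp
  have e2 : ∑ p ∈ (Ioc 0 Y).filter H, Real.log p / p =
      Real.log X * ∑ p ∈ Ioc 0 Y, (if H p then Real.log p / p / Real.log X else 0) := by
    rw [Finset.sum_filter, Finset.mul_sum]
    refine Finset.sum_congr rfl fun p _ => ?_
    split_ifs
    · field_simp
    · simp
  rw [e1, e2] at hc3
  set V2 := ∑ p ∈ Ioc 0 Y, (if H p then (Real.log p) ^ 2 / p / (Real.log X) ^ 2 else 0) with hV2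
  set V1 := ∑ p ∈ Ioc 0 Y, (if H p then Real.log p / p / Real.log X else 0) with hV1
  have hV1n : 0 ≤ V1 := by
    refine Finset.sum_nonneg fun p hpm => ?_
    have := (Finset.mem_Ioc.1 hpm).1
    split_ifs
    · have : 0 ≤ Real.log p := Real.log_nonneg (by exact_mod_cast this)
      positivity
    · exact le_rfl
  have hc4 : (((Icc 2 X).filter fun b => θ * Real.log X ≤ LS H Y b).card : ℝ) ≤
      X * ((V2 + V1 ^ 2) / θ ^ 2) := by
    rw [mul_div_assoc', le_div_iff₀ (by positivity)]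
    have h5 : (θ * Real.log X) ^ 2 *
        (((Icc 2 X).filter fun b => θ * Real.log X ≤ LS H Y b).card : ℝ) ≤
        (X * (V2 + V1 ^ 2)) * (Real.log X) ^ 2 := by
      refine hc3.trans (le_of_eq ?_)
      ring
    have h6 : (((Icc 2 X).filter fun b => θ * Real.log X ≤ LS H Y b).card : ℝ) * θ ^ 2 *
        (Real.log X) ^ 2 ≤ (X * (V2 + V1 ^ 2)) * (Real.log X) ^ 2 := by
      refine le_trans (le_of_eq ?_) h5
      ring
    exact le_of_mul_le_mul_right h6 (by positivity)
  have hV : (V2 + V1 ^ 2) / θ ^ 2 ≤ A / 2 + A ^ 2 + (η + 2 * (A * θ) * η + η ^ 2) / θ ^ 2 := by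
    have h7 : V1 ^ 2 ≤ (A * θ + η) ^ 2 := pow_le_pow_left₀ hV1n hT1 2
    have h8 : A / 2 + A ^ 2 + (η + 2 * (A * θ) * η + η ^ 2) / θ ^ 2 =
        (A * (θ ^ 2 / 2) + η + (A * θ + η) ^ 2) / θ ^ 2 := by
      field_simp
      ring
    rw [h8]
    exact div_le_div_of_nonneg_right (by linarith) (by positivity)
  have hT0' := mul_le_mul_of_nonneg_left hT0 hX0.le
  have hV' := mul_le_mul_of_nonneg_left hV hX0.le
  have hη' := mul_le_mul_of_nonneg_left hη hX0.le
  nlinarith

end Pool.Agent.Cohn
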