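import Pool.Agent.Cohn.Crt
import Pool.Agent.Cohn.Classes

/-!
For fixed `m' < m` the set of `c` with `((c m' + 1) ^ n - 1) ((c m + 1) ^ n - 1)` a square has
density zero.
-/

set_option autoImplicit false

open Filter Topology Finset

namespace Pool.Agent.Cohn

/-- There is an `n`-th root of unity `x ≠ 1` modulo `p` such that `1 + μ (x - 1)` is not an `n`-th
root of unity. -/
lemma exists_root {p n : ℕ} (hp : p.Prime) (hn : 2 ≤ n) (hpn : n ∣ p - 1) (μ : ZMod p)
    (hμ0 : μ ≠ 0) (hμ1 : μ ≠ 1) :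
    ∃ x : ZMod p, x ^ n = 1 ∧ x ≠ 1 ∧ (1 + μ * (x - 1)) ^ n ≠ 1 := by
  classical
  have : Fact p.Prime := ⟨hp⟩
  by_contra hcon
  push Not at hcon
  -- a primitive root
  obtain ⟨g, hg⟩ := IsCyclic.exists_ofOrder_eq_natCard (α := (ZMod p)ˣ)
  rw [Nat.card_eq_fintype_card, ZMod.card_units_eq_totient, Nat.totient_prime hp] at hg
  obtain ⟨k, hk⟩ := hpn
  have hp1 : 0 < p - 1 := by have := hp.one_lt; omega
  have hk0 : k ≠ 0 := by
    rintro rfl
    omega
  have hord : orderOf (g ^ k) = n := by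
    rw [orderOf_pow_of_dvd hk0 (by rw [hg, hk]; exact Dvd.intro_left n rfl), hg, hk]
    exact Nat.mul_div_cancel _ (Nat.pos_of_ne_zero hk0)
  have hprim : IsPrimitiveRoot (g ^ k) n := by
    rw [← hord]
    exact IsPrimitiveRoot.orderOf _
  have hprim' : IsPrimitiveRoot (((g ^ k : (ZMod p)ˣ)) : ZMod p) n :=
    IsPrimitiveRoot.coe_units_iff.2 hprim
  set ζ : ZMod p := ((g ^ k : (ZMod p)ˣ) : ZMod p) with hζ
  have hn0 : 0 < n := by omega
  set U := Polynomial.nthRootsFinset n (1 : ZMod p) with hU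
  have hmem : ∀ x, x ∈ U ↔ x ^ n = 1 := fun x => Polynomial.mem_nthRootsFinset hn0 1
  have hcard : U.card = n := hprim'.card_nthRootsFinset
  have hζ1 : ζ ≠ 1 := hprim'.ne_one (by omega)
  have hζn : ζ ^ n = 1 := hprim'.pow_eq_one
  have hζ0 : ζ ≠ 0 := by
    intro h
    rw [h, zero_pow hn0.ne'] at hζn
    exact zero_ne_one hζn
  -- the sum of the roots vanishes
  have hsum : ∑ x ∈ U, x = 0 := by
    have h1 : ∑ x ∈ U, ζ * x = ∑ x ∈ U, x := by
      refine Finset.sum_bij (fun x _ => ζ * x) ?_ ?_ ?_ ?_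
      · intro x hx
        rw [hmem] at hx ⊢
        rw [mul_pow, hζn, hx, one_mul]
      · intro x _ y _ h
        exact mul_left_cancel₀ hζ0 h
      · intro y hy
        refine ⟨ζ⁻¹ * y, ?_, ?_⟩
        · rw [hmem] at hy ⊢
          rw [mul_pow, inv_pow, hζn, hy, inv_one, one_mul]
        · rw [← mul_assoc, mul_inv_cancel₀ hζ0, one_mul]
      · intro x _
        rfl
    rw [← Finset.mul_sum] at h1
    have h2 : (ζ - 1) * ∑ x ∈ U, x = 0 := by rw [sub_mul, one_mul, h1, sub_self]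
    rcases mul_eq_zero.1 h2 with h | h
    · exact absurd (sub_eq_zero.1 h) hζ1
    · exact h
  have h1U : (1 : ZMod p) ∈ U := (hmem 1).2 (one_pow n)
  -- the map
  set V := U.erase 1 with hV
  have hsumV : ∑ x ∈ V, x = -1 := by
    have := Finset.add_sum_erase U (fun x => x) h1U
    rw [hsum] at this
    linear_combination this
  have hcardV : ((V.card : ℕ) : ZMod p) = (n : ZMod p) - 1 := by
    rw [hV, Finset.card_erase_of_mem h1U, hcard, Nat.cast_sub (by omega)]
    simp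
  have hmaps : ∀ x ∈ V, 1 + μ * (x - 1) ∈ V := by
    intro x hx
    have hx' := Finset.mem_erase.1 hx
    refine Finset.mem_erase.2 ⟨?_, ?_⟩
    · intro h
      have h3 : μ * (x - 1) = 0 := by linear_combination h
      rcases mul_eq_zero.1 h3 with h4 | h4
      · exact hμ0 h4
      · exact hx'.1 (sub_eq_zero.1 h4)
    · rw [hmem]
      exact hcon x ((hmem x).1 hx'.2) hx'.1
  have hinj : Set.InjOn (fun x => 1 + μ * (x - 1)) (V : Set (ZMod p)) := by
    intro x _ y _ h
    have h3 : μ * (x - y) = 0 := by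
      simp only at h
      linear_combination h
    rcases mul_eq_zero.1 h3 with h4 | h4
    · exact absurd h4 hμ0
    · exact sub_eq_zero.1 h4
  have himg : V.image (fun x => 1 + μ * (x - 1)) = V := by
    apply Finset.eq_of_subset_of_card_le
    · intro y hy
      obtain ⟨x, hx, rfl⟩ := Finset.mem_image.1 hy
      exact hmaps x hx
    · rw [Finset.card_image_of_injOn hinj]
  have hsum2 : ∑ x ∈ V, (1 + μ * (x - 1)) = ∑ x ∈ V, x := by
    conv_rhs => rw [← himg]
    rw [Finset.sum_image hinj]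
  have hsum3 : ∑ x ∈ V, (1 + μ * (x - 1)) = (n : ZMod p) - 1 + μ * (-1 - ((n : ZMod p) - 1)) := by
    rw [Finset.sum_add_distrib, ← Finset.mul_sum, Finset.sum_sub_distrib, hsumV,
      Finset.sum_const, nsmul_eq_mul, mul_one, hcardV]
  rw [hsum3, hsumV] at hsum2
  have h5 : (n : ZMod p) * (1 - μ) = 0 := by linear_combination hsum2
  rcases mul_eq_zero.1 h5 with h6 | h6
  · have h7 : p ∣ n := (ZMod.natCast_eq_zero_iff _ _).1 h6
    have h8 : n ∣ p - 1 := ⟨k, hk⟩
    have h9 : p ∣ p - 1 := h7.trans h8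
    have := Nat.le_of_dvd hp1 h9
    omega
  · exact hμ1 (sub_eq_zero.1 h6).symm

/-- The excluded residues modulo `p ^ 2`. -/
lemma exists_excluded {p n m m' : ℕ} (hp : p.Prime) (hn : 2 ≤ n) (hpn : n ∣ p - 1)
    (hm' : 0 < m') (hmm : m' < m) (hpm : m < p) :
    ∃ B : Finset ℕ, B ⊆ range (p ^ 2) ∧ p - 1 ≤ B.card ∧ ∀ c, c % p ^ 2 ∈ B →
      ¬ ∃ x, ((c * m' + 1) ^ n - 1) * ((c * m + 1) ^ n - 1) = x ^ 2 := by
  classical
  have : Fact p.Prime := ⟨hp⟩
  have hn0 : n ≠ 0 := by omega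
  have hp1 : 0 < p - 1 := by have := hp.one_lt; omega
  have hpn' : ¬ p ∣ n := by
    intro h
    have := Nat.le_of_dvd hp1 (h.trans hpn)
    omega
  have hmz : (m : ZMod p) ≠ 0 := by
    intro h
    have h1 := (ZMod.natCast_eq_zero_iff _ _).1 h
    have := Nat.le_of_dvd (by omega) h1
    omega
  have hmz' : (m' : ZMod p) ≠ 0 := by
    intro h
    have h1 := (ZMod.natCast_eq_zero_iff _ _).1 h
    have := Nat.le_of_dvd (by omega) h1
    omega
  have hne : (m' : ZMod p) / m ≠ 1 := by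
    intro h
    rw [div_eq_one_iff_eq hmz] at h
    have h1 := (ZMod.natCast_eq_natCast_iff' _ _ _).1 h
    rw [Nat.mod_eq_of_lt (by omega), Nat.mod_eq_of_lt hpm] at h1
    omega
  obtain ⟨x, hx1, hx2, hx3⟩ := exists_root hp hn hpn ((m' : ZMod p) / m) (div_ne_zero hmz' hmz) hne
  set c0 : ZMod p := (x - 1) / m with hc0
  have e1 : c0 * m + 1 = x := by rw [hc0, div_mul_cancel₀ _ hmz]; ring
  have e2 : c0 * m' + 1 = 1 + (m' : ZMod p) / m * (x - 1) := by
    rw [hc0]
    field_simp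
    ring
  have hpos : ∀ c : ℕ, 1 ≤ (c * m + 1) ^ n := fun c => Nat.one_le_pow _ _ (Nat.succ_pos _)
  have hpos' : ∀ c : ℕ, 1 ≤ (c * m' + 1) ^ n := fun c => Nat.one_le_pow _ _ (Nat.succ_pos _)
  refine ⟨(range (p ^ 2)).filter fun c : ℕ => (c : ZMod p) = c0 ∧ ¬ p ^ 2 ∣ (c * m + 1) ^ n - 1,
    Finset.filter_subset _ _, ?_, ?_⟩
  · -- the number of residues
    set R := (range (p ^ 2)).filter fun c : ℕ => (c : ZMod p) = c0 with hR
    have hRcard : p ≤ R.card := by
      have h1 : ((range p).image fun j => c0.val + p * j) ⊆ R := by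
        intro c hc
        obtain ⟨j, hj, rfl⟩ := Finset.mem_image.1 hc
        rw [Finset.mem_range] at hj
        have h2 := ZMod.val_lt c0
        refine Finset.mem_filter.2 ⟨Finset.mem_range.2 ?_, ?_⟩
        · have : p * j ≤ p * (p - 1) := Nat.mul_le_mul_left p (by omega)
          have h3 : p * (p - 1) + p = p ^ 2 := by
            rw [← Nat.mul_succ, Nat.succ_eq_add_one, Nat.sub_add_cancel hp.one_lt.le, sq]
          omega
        · push_cast
          simp
      calc p = ((range p).image fun j => c0.val + p * j).card := by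
            rw [Finset.card_image_of_injective, Finset.card_range]
            intro i j h
            simp only [add_right_inj] at h
            exact Nat.eq_of_mul_eq_mul_left hp.pos h
        _ ≤ R.card := Finset.card_le_card h1
    have hone : (R.filter fun c => p ^ 2 ∣ (c * m + 1) ^ n - 1).card ≤ 1 := by
      rw [Finset.card_le_one]
      intro a ha b hb
      obtain ⟨ha1, ha2⟩ := Finset.mem_filter.1 ha
      obtain ⟨hb1, hb2⟩ := Finset.mem_filter.1 hb
      obtain ⟨ha3, ha4⟩ := Finset.mem_filter.1 ha1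
      obtain ⟨hb3, hb4⟩ := Finset.mem_filter.1 hb1
      rw [Finset.mem_range] at ha3 hb3
      have hpi : Prime (p : ℤ) := Nat.prime_iff_prime_int.1 hp
      have d1 : (p : ℤ) ∣ ((a * m + 1 : ℕ) : ℤ) - ((b * m + 1 : ℕ) : ℤ) := by
        have h1 : ((((a * m + 1 : ℕ) : ℤ) - ((b * m + 1 : ℕ) : ℤ) : ℤ) : ZMod p) = 0 := by
          push_cast
          rw [ha4, hb4]
          ring
        exact (ZMod.intCast_zmod_eq_zero_iff_dvd _ _).1 h1
      have d2 : ¬ (p : ℤ) ∣ ((a * m + 1 : ℕ) : ℤ) := by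
        intro h
        have h1 : ((a * m + 1 : ℕ) : ZMod p) = 0 := by
          have := (ZMod.intCast_zmod_eq_zero_iff_dvd ((a * m + 1 : ℕ) : ℤ) p).2 h
          exact_mod_cast this
        push_cast at h1
        rw [ha4, e1] at h1
        rw [h1, zero_pow hn0] at hx1
        exact zero_ne_one hx1
      have d3 : ¬ (p : ℤ) ∣ (n : ℤ) := fun h => hpn' (Int.natCast_dvd_natCast.1 h)
      have d4 := emultiplicity_pow_sub_pow_of_prime hpi d1 d2 d3
      have d5 : (p : ℤ) ^ 2 ∣ ((a * m + 1 : ℕ) : ℤ) ^ n - ((b * m + 1 : ℕ) : ℤ) ^ n := by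
        have h1 : ((p ^ 2 : ℕ) : ℤ) ∣ (((a * m + 1) ^ n - 1 : ℕ) : ℤ) :=
          Int.natCast_dvd_natCast.2 ha2
        have h2 : ((p ^ 2 : ℕ) : ℤ) ∣ (((b * m + 1) ^ n - 1 : ℕ) : ℤ) :=
          Int.natCast_dvd_natCast.2 hb2
        have h3 := dvd_sub h1 h2
        rw [Nat.cast_sub (hpos a), Nat.cast_sub (hpos b)] at h3
        push_cast at h3 ⊢
        have e : ((a : ℤ) * m + 1) ^ n - (b * m + 1) ^ n =
          ((a : ℤ) * m + 1) ^ n - 1 - ((b * m + 1) ^ n - 1) := by ring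
        rw [e]
        exact h3
      have d6 : (p : ℤ) ^ 2 ∣ ((a * m + 1 : ℕ) : ℤ) - ((b * m + 1 : ℕ) : ℤ) := by
        rw [pow_dvd_iff_le_emultiplicity] at d5 ⊢
        rw [← d4]
        exact d5
      have d7 : (p : ℤ) ^ 2 ∣ ((a : ℤ) - b) * m := by
        have e : ((a * m + 1 : ℕ) : ℤ) - ((b * m + 1 : ℕ) : ℤ) = ((a : ℤ) - b) * m := by
          push_cast
          ring
        rw [← e]
        exact d6
      have d8 : IsCoprime ((p : ℤ) ^ 2) (m : ℤ) := by
        apply IsCoprime.pow_left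
        rw [Nat.isCoprime_iff_coprime, Nat.Prime.coprime_iff_not_dvd hp]
        intro h
        have := Nat.le_of_dvd (by omega) h
        omega
      have d9 := d8.dvd_of_dvd_mul_right d7
      obtain ⟨k, hk⟩ := d9
      have hk0 : k = 0 := by
        by_contra hne0
        have h1 : 1 ≤ |k| := Int.one_le_abs hne0
        have h2 : |(a : ℤ) - b| < (p : ℤ) ^ 2 := by
          rw [abs_lt]
          have ha5 : (a : ℤ) < (p : ℤ) ^ 2 := by exact_mod_cast ha3
          have hb5 : (b : ℤ) < (p : ℤ) ^ 2 := by exact_mod_cast hb3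
          constructor <;> linarith [Int.natCast_nonneg a, Int.natCast_nonneg b]
        rw [hk, abs_mul, abs_of_nonneg (by positivity : (0 : ℤ) ≤ (p : ℤ) ^ 2)] at h2
        have h3 : (0 : ℤ) < (p : ℤ) ^ 2 := by have := hp.pos; positivity
        nlinarith
      rw [hk0, mul_zero] at hk
      omega
    have hsplit := Finset.card_filter_add_card_filter_not (s := R)
      (fun c => p ^ 2 ∣ (c * m + 1) ^ n - 1)
    have hsame : ((range (p ^ 2)).filter fun c : ℕ => (c : ZMod p) = c0 ∧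
        ¬ p ^ 2 ∣ (c * m + 1) ^ n - 1) = R.filter fun c => ¬ p ^ 2 ∣ (c * m + 1) ^ n - 1 := by
      rw [hR, Finset.filter_filter]
    rw [hsame]
    omega
  · -- the excluded residues
    intro c hc
    rintro ⟨y, hy⟩
    obtain ⟨hc1, hc2, hc3⟩ := Finset.mem_filter.1 hc
    have hcz : (c : ZMod p) = c0 := by
      rw [← hc2]
      rw [ZMod.natCast_eq_natCast_iff']
      exact (Nat.mod_mod_of_dvd c (dvd_pow_self p two_ne_zero)).symm
    have hd1 : p ∣ (c * m + 1) ^ n - 1 := by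
      rw [← ZMod.natCast_eq_zero_iff, Nat.cast_sub (hpos c)]
      push_cast
      rw [hcz, e1, hx1, sub_self]
    have hd2 : ¬ p ∣ (c * m' + 1) ^ n - 1 := by
      rw [← ZMod.natCast_eq_zero_iff, Nat.cast_sub (hpos' c)]
      push_cast
      rw [hcz, e2, sub_eq_zero]
      exact hx3
    have hd3 : ¬ p ^ 2 ∣ (c * m + 1) ^ n - 1 := by
      intro h
      apply hc3
      have h1 : (c % p ^ 2 * m + 1) ^ n ≡ (c * m + 1) ^ n [MOD p ^ 2] :=
        (((Nat.mod_modEq c (p ^ 2)).mul_right m).add_right 1).pow n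
      have h2 : (c * m + 1) ^ n ≡ 1 [MOD p ^ 2] :=
        ((Nat.modEq_iff_dvd' (hpos c)).2 h).symm
      exact (Nat.modEq_iff_dvd' (hpos _)).1 (h1.trans h2).symm
    have h1 : p ∣ y ^ 2 := by rw [← hy]; exact hd1.mul_left _
    have h2 : p ∣ y := hp.dvd_of_dvd_pow h1
    have h3 : p ^ 2 ∣ ((c * m' + 1) ^ n - 1) * ((c * m + 1) ^ n - 1) := by
      rw [hy]
      exact pow_dvd_pow_of_dvd h2 2
    have h4 : Nat.Coprime (p ^ 2) ((c * m' + 1) ^ n - 1) :=
      Nat.Coprime.pow_left 2 ((Nat.Prime.coprime_iff_not_dvd hp).2 hd2)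
    exact hd3 (h4.dvd_of_dvd_mul_left h3)

open Classical in
/-- For a fixed pair the set of `c` has density zero. -/
lemma fixed_pair {n m m' : ℕ} (hn : 2 ≤ n) (hm' : 0 < m') (hmm : m' < m) {ε : ℝ} (hε : 0 < ε) :
    ∃ C : ℝ, 0 ≤ C ∧ ∀ L : ℕ, (((Icc 1 L).filter fun c => ∃ x,
      ((c * m' + 1) ^ n - 1) * ((c * m + 1) ^ n - 1) = x ^ 2).card : ℝ) ≤ ε * L + C := by
  classical
  have hn0 : 0 < n := by omega
  -- a finite set of primes
  have hns := not_summable (H := Hc n 1) (th_class_tendsto hn0 (Nat.coprime_one_left n))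
    (fun h => Nat.not_prime_one h.1) (by
      have : (0 : ℝ) < Nat.totient n := by exact_mod_cast Nat.totient_pos.2 hn0
      positivity)
  rw [not_summable_iff_tendsto_nat_atTop_of_nonneg (fun p => by split_ifs <;> positivity)] at hns
  obtain ⟨N, hN⟩ := (hns.eventually_ge_atTop (2 * Real.log (1 / ε) +
    ∑ p ∈ range (m + 1), (if Hc n 1 p then (1 : ℝ) / p else 0))).exists
  set P := (range N).filter fun p => Hc n 1 p ∧ m < p with hP
  have hPs : 2 * Real.log (1 / ε) ≤ ∑ p ∈ P, (1 : ℝ) / p := by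
    have h1 : ∑ p ∈ range N, (if Hc n 1 p then (1 : ℝ) / p else 0) ≤
        ∑ p ∈ P, (1 : ℝ) / p + ∑ p ∈ range (m + 1), (if Hc n 1 p then (1 : ℝ) / p else 0) := by
      have h2 : ∑ p ∈ P, (1 : ℝ) / p = ∑ p ∈ range N, (if Hc n 1 p ∧ m < p then (1 : ℝ) / p else 0) := by
        rw [hP, Finset.sum_filter]
      have h3 : ∑ p ∈ range N, (if Hc n 1 p ∧ p ≤ m then (1 : ℝ) / p else 0) ≤
          ∑ p ∈ range (m + 1), (if Hc n 1 p then (1 : ℝ) / p else 0) := by
        rw [← Finset.sum_filter, ← Finset.sum_filter]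
        refine Finset.sum_le_sum_of_subset_of_nonneg ?_ fun _ _ _ => by positivity
        intro p hp
        obtain ⟨_, h4, h5⟩ := Finset.mem_filter.1 hp
        exact Finset.mem_filter.2 ⟨Finset.mem_range.2 (by omega), h4⟩
      have h4 : ∑ p ∈ range N, (if Hc n 1 p then (1 : ℝ) / p else 0) =
          ∑ p ∈ range N, (if Hc n 1 p ∧ m < p then (1 : ℝ) / p else 0) +
          ∑ p ∈ range N, (if Hc n 1 p ∧ p ≤ m then (1 : ℝ) / p else 0) := by
        rw [← Finset.sum_add_distrib]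
        refine Finset.sum_congr rfl fun p _ => ?_
        by_cases h5 : Hc n 1 p
        · by_cases h6 : m < p
          · rw [if_pos h5, if_pos ⟨h5, h6⟩, if_neg (fun h => absurd h.2 (not_le.2 h6)), add_zero]
          · rw [if_pos h5, if_neg (fun h => h6 h.2), if_pos ⟨h5, not_lt.1 h6⟩, zero_add]
        · rw [if_neg h5, if_neg (fun h => h5 h.1), if_neg (fun h => h5 h.1), add_zero]
      rw [h4, h2]
      linarith
    linarith
  have hPp : ∀ p ∈ P, p.Prime ∧ n ∣ p - 1 ∧ m < p := by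
    intro p hp
    obtain ⟨_, ⟨h1, h2⟩, h3⟩ := Finset.mem_filter.1 hp
    exact ⟨h1, (Nat.modEq_iff_dvd' h1.one_lt.le).1 (show 1 ≡ p [MOD n] from h2.symm), h3⟩
  have hB : ∀ p : ℕ, ∃ B : Finset ℕ, p ∈ P → (B ⊆ range (p ^ 2) ∧ p - 1 ≤ B.card ∧
      ∀ c, c % p ^ 2 ∈ B → ¬ ∃ x, ((c * m' + 1) ^ n - 1) * ((c * m + 1) ^ n - 1) = x ^ 2) := by
    intro p
    by_cases hp : p ∈ P
    · obtain ⟨h1, h2, h3⟩ := hPp p hp
      obtain ⟨B, hB⟩ := exists_excluded h1 hn h2 hm' hmm h3
      exact ⟨B, fun _ => hB⟩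
    · exact ⟨∅, fun h => absurd h hp⟩
  choose B hB using hB
  set Q := ∏ p ∈ P, p ^ 2 with hQ
  have hQ0 : 0 < Q := Finset.prod_pos fun p hp => pow_pos (hPp p hp).1.pos 2
  have hQ0' : (0 : ℝ) < Q := by exact_mod_cast hQ0
  -- the product
  have hprod : (∏ p ∈ P, ((range (p ^ 2) \ B p).card : ℝ)) ≤ ε * Q := by
    have h1 : ∀ p ∈ P, ((range (p ^ 2) \ B p).card : ℝ) ≤
        (p : ℝ) ^ 2 * Real.exp (-(1 / (2 * p))) := by
      intro p hp
      obtain ⟨h2, h3, _⟩ := hB p hp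
      have hpp := (hPp p hp).1
      have hp2 : (2 : ℝ) ≤ p := by exact_mod_cast hpp.two_le
      rw [Finset.card_sdiff_of_subset h2, Finset.card_range,
        Nat.cast_sub ((Finset.card_le_card h2).trans (Finset.card_range _).le)]
      have h4 : (p : ℝ) - 1 ≤ (B p).card := by
        have h5 : ((p - 1 : ℕ) : ℝ) ≤ (B p).card := by exact_mod_cast h3
        rwa [Nat.cast_sub hpp.one_lt.le, Nat.cast_one] at h5
      have h6 : 1 - 1 / (2 * (p : ℝ)) ≤ Real.exp (-(1 / (2 * p))) := by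
        have := Real.add_one_le_exp (-(1 / (2 * (p : ℝ))))
        linarith
      have h7 := mul_le_mul_of_nonneg_left h6 (sq_nonneg (p : ℝ))
      have h8 : (p : ℝ) ^ 2 * (1 - 1 / (2 * p)) = p ^ 2 - p / 2 := by
        field_simp
      rw [h8] at h7
      push_cast
      linarith
    calc (∏ p ∈ P, ((range (p ^ 2) \ B p).card : ℝ))
        ≤ ∏ p ∈ P, (p : ℝ) ^ 2 * Real.exp (-(1 / (2 * p))) :=
          Finset.prod_le_prod (fun _ _ => Nat.cast_nonneg _) h1
      _ = Q * Real.exp (-(∑ p ∈ P, 1 / (2 * (p : ℝ)))) := by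
          rw [Finset.prod_mul_distrib, ← Real.exp_sum, Finset.sum_neg_distrib, hQ]
          push_cast
          rfl
      _ ≤ Q * ε := by
          apply mul_le_mul_of_nonneg_left _ hQ0'.le
          have h9 : Real.log (1 / ε) ≤ ∑ p ∈ P, 1 / (2 * (p : ℝ)) := by
            have : ∑ p ∈ P, 1 / (2 * (p : ℝ)) = (∑ p ∈ P, (1 : ℝ) / p) / 2 := by
              rw [Finset.sum_div]
              refine Finset.sum_congr rfl fun p hp => ?_
              have : (0 : ℝ) < p := by exact_mod_cast (hPp p hp).1.pos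
              field_simp
            rw [this]
            linarith
          calc Real.exp (-(∑ p ∈ P, 1 / (2 * (p : ℝ)))) ≤ Real.exp (-Real.log (1 / ε)) :=
                Real.exp_le_exp.2 (neg_le_neg h9)
            _ = ε := by
                rw [one_div, Real.log_inv, neg_neg, Real.exp_log hε]
      _ = ε * Q := mul_comm _ _
  refine ⟨ε * Q, by positivity, fun L => ?_⟩
  have hcount := crt_count P (fun p => p ^ 2) (fun p hp => pow_pos (hPp p hp).1.pos 2)
    (fun p hp p' hp' hne => Nat.Coprime.pow 2 2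
      ((Nat.coprime_primes (hPp p hp).1 (hPp p' hp').1).2 hne)) (fun p => range (p ^ 2) \ B p) L
  have hsub : ((Icc 1 L).filter fun c => ∃ x,
      ((c * m' + 1) ^ n - 1) * ((c * m + 1) ^ n - 1) = x ^ 2) ⊆
      ((Icc 1 L).filter fun c => ∀ p ∈ P, c % p ^ 2 ∈ range (p ^ 2) \ B p) := by
    intro c hc
    obtain ⟨h1, h2⟩ := Finset.mem_filter.1 hc
    refine Finset.mem_filter.2 ⟨h1, fun p hp => ?_⟩
    rw [Finset.mem_sdiff, Finset.mem_range]
    refine ⟨Nat.mod_lt _ (pow_pos (hPp p hp).1.pos 2), fun h => ?_⟩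
    exact (hB p hp).2.2 c h h2
  have h1 : (((Icc 1 L).filter fun c => ∃ x,
      ((c * m' + 1) ^ n - 1) * ((c * m + 1) ^ n - 1) = x ^ 2).card : ℝ) ≤
      ((L / Q : ℕ) + 1) * ∏ p ∈ P, ((range (p ^ 2) \ B p).card : ℝ) := by
    have := (Finset.card_le_card hsub).trans hcount
    exact_mod_cast this
  calc (((Icc 1 L).filter fun c => ∃ x,
      ((c * m' + 1) ^ n - 1) * ((c * m + 1) ^ n - 1) = x ^ 2).card : ℝ)
      ≤ ((L / Q : ℕ) + 1) * ∏ p ∈ P, ((range (p ^ 2) \ B p).card : ℝ) := h1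
    _ ≤ ((L : ℝ) / Q + 1) * (ε * Q) := by
        apply mul_le_mul _ hprod (Finset.prod_nonneg fun _ _ => Nat.cast_nonneg _) (by positivity)
        have : ((L / Q : ℕ) : ℝ) ≤ (L : ℝ) / Q := Nat.cast_div_le
        linarith
    _ = ε * L + ε * Q := by
        field_simp

end Pool.Agent.Cohn
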