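import Pool.Agent.Cohn.Med
import Pool.Agent.Cohn.Pair
import Pool.Agent.Cohn.Markov

/-!
The density of the numbers `b` which occur in a solution of `(a ^ n - 1) (b ^ n - 1) = x ^ 2`.
-/

set_option autoImplicit false

open Filter Topology Finset

namespace Pool.Agent.Cohn

open Classical in
/-- Large square factors are rare. -/
lemma A_bound (n S0 X : ℕ) : (((Icc 2 X).filter fun b =>
    ∃ c m m' u s u' t : ℕ, Sol n b c m m' u s u' t ∧ S0 < s).card : ℝ) ≤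
      2 / ((S0 : ℝ) + 1) * X := by
  have hsub : ((Icc 2 X).filter fun b =>
      ∃ c m m' u s u' t : ℕ, Sol n b c m m' u s u' t ∧ S0 < s) ⊆
      (Ioo S0 (X + 1)).biUnion fun s => (Icc 2 X).filter fun b => s ^ 2 ∣ b - 1 := by
    intro b hb
    obtain ⟨h1, c, m, m', u, s, u', t, hS, hs⟩ := Finset.mem_filter.1 hb
    have h2 := Finset.mem_Icc.1 h1
    have h3 : s ^ 2 ∣ b - 1 := by
      rw [hS.hb, Nat.add_sub_cancel_left, ← hS.em]
      exact ⟨c * u, by ring⟩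
    have h4 : s ^ 2 ≤ b - 1 := Nat.le_of_dvd (by omega) h3
    have h5 : s ≤ s ^ 2 := Nat.le_self_pow (by norm_num) s
    exact Finset.mem_biUnion.2 ⟨s, Finset.mem_Ioo.2 ⟨hs, by omega⟩,
      Finset.mem_filter.2 ⟨h1, h3⟩⟩
  have h1 : (((Icc 2 X).filter fun b =>
      ∃ c m m' u s u' t : ℕ, Sol n b c m m' u s u' t ∧ S0 < s).card : ℝ) ≤
      ∑ s ∈ Ioo S0 (X + 1), (((Icc 2 X).filter fun b => s ^ 2 ∣ b - 1).card : ℝ) := by
    have := (Finset.card_le_card hsub).trans Finset.card_biUnion_le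
    exact_mod_cast this
  calc _ ≤ ∑ s ∈ Ioo S0 (X + 1), (((Icc 2 X).filter fun b => s ^ 2 ∣ b - 1).card : ℝ) := h1
    _ ≤ ∑ s ∈ Ioo S0 (X + 1), ((s : ℝ) ^ 2)⁻¹ * X := by
        refine Finset.sum_le_sum fun s _ => ?_
        have := card_dvd_le X (s ^ 2)
        push_cast at this
        rw [inv_mul_eq_div]
        exact this
    _ = (∑ s ∈ Ioo S0 (X + 1), ((s : ℝ) ^ 2)⁻¹) * X := by rw [Finset.sum_mul]
    _ ≤ 2 / ((S0 : ℝ) + 1) * X :=
        mul_le_mul_of_nonneg_right (sum_Ioo_inv_sq_le S0 (X + 1)) (Nat.cast_nonneg X)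

open Classical in
/-- Bounded pairs contribute density zero. -/
lemma B_bound {n : ℕ} (hn : 2 ≤ n) (S0 U0 : ℕ) {ε : ℝ} (hε : 0 < ε) :
    ∀ᶠ X : ℕ in atTop, (((Icc 2 X).filter fun b =>
      ∃ c m m' u s u' t : ℕ, Sol n b c m m' u s u' t ∧ s ≤ S0 ∧ u ≤ U0).card : ℝ) ≤ ε * X := by
  set M := S0 ^ 2 * U0 with hM
  set P : Finset (ℕ × ℕ) := (Icc 1 M ×ˢ Icc 1 M).filter fun q => q.2 < q.1 with hP
  set ε1 := ε / (2 * ((P.card : ℝ) + 1)) with hε1
  have hε10 : 0 < ε1 := by positivity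
  have hC : ∀ q : ℕ × ℕ, ∃ C : ℝ, 0 ≤ C ∧ (q ∈ P → ∀ L : ℕ,
      (((Icc 1 L).filter fun c => ∃ x,
      ((c * q.2 + 1) ^ n - 1) * ((c * q.1 + 1) ^ n - 1) = x ^ 2).card : ℝ) ≤ ε1 * L + C) := by
    intro q
    by_cases hq : q ∈ P
    · obtain ⟨h1, h2⟩ := Finset.mem_filter.1 hq
      obtain ⟨h3, h4⟩ := Finset.mem_product.1 h1
      obtain ⟨C, hC0, hC⟩ := fixed_pair hn (m := q.1) (m' := q.2) (Finset.mem_Icc.1 h4).1 h2 hε10
      exact ⟨C, hC0, fun _ => hC⟩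
    · exact ⟨0, le_rfl, fun h => absurd h hq⟩
  choose C hC0 hC using hC
  have hsub : ∀ X : ℕ, ((Icc 2 X).filter fun b =>
      ∃ c m m' u s u' t : ℕ, Sol n b c m m' u s u' t ∧ s ≤ S0 ∧ u ≤ U0) ⊆
      P.biUnion fun q => ((Icc 1 X).filter fun c => ∃ x,
        ((c * q.2 + 1) ^ n - 1) * ((c * q.1 + 1) ^ n - 1) = x ^ 2).image
          fun c => 1 + c * q.1 := by
    intro X b hb
    obtain ⟨h1, c, m, m', u, s, u', t, hS, hs, hu⟩ := Finset.mem_filter.1 hb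
    have h2 := Finset.mem_Icc.1 h1
    have hm0 : 0 < m := lt_trans hS.hm' hS.hmm
    have hmM : m ≤ M := by
      rw [← hS.em, hM]
      exact Nat.mul_le_mul (Nat.pow_le_pow_left hs 2) hu
    refine Finset.mem_biUnion.2 ⟨(m, m'), ?_, Finset.mem_image.2 ⟨c, ?_, hS.hb.symm⟩⟩
    · refine Finset.mem_filter.2 ⟨Finset.mem_product.2 ⟨Finset.mem_Icc.2 ⟨hm0, hmM⟩,
        Finset.mem_Icc.2 ⟨hS.hm', ?_⟩⟩, hS.hmm⟩
      show m' ≤ M
      exact (hS.hmm.le).trans hmM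
    · refine Finset.mem_filter.2 ⟨Finset.mem_Icc.2 ⟨hS.hc, ?_⟩, hS.hx⟩
      have h3 := hS.hb
      have h4 : c * 1 ≤ c * m := Nat.mul_le_mul_left c hm0
      omega
  have hcount : ∀ X : ℕ, (((Icc 2 X).filter fun b =>
      ∃ c m m' u s u' t : ℕ, Sol n b c m m' u s u' t ∧ s ≤ S0 ∧ u ≤ U0).card : ℝ) ≤
      P.card * (ε1 * X) + ∑ q ∈ P, C q := by
    intro X
    have h1 : (((Icc 2 X).filter fun b =>
        ∃ c m m' u s u' t : ℕ, Sol n b c m m' u s u' t ∧ s ≤ S0 ∧ u ≤ U0).card : ℝ) ≤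
        ∑ q ∈ P, (((((Icc 1 X).filter fun c => ∃ x,
          ((c * q.2 + 1) ^ n - 1) * ((c * q.1 + 1) ^ n - 1) = x ^ 2).image
            fun c => 1 + c * q.1).card : ℕ) : ℝ) := by
      have := (Finset.card_le_card (hsub X)).trans Finset.card_biUnion_le
      exact_mod_cast this
    calc _ ≤ _ := h1
      _ ≤ ∑ q ∈ P, (ε1 * X + C q) := by
          refine Finset.sum_le_sum fun q hq => ?_
          have h2 : ((((Icc 1 X).filter fun c => ∃ x,
              ((c * q.2 + 1) ^ n - 1) * ((c * q.1 + 1) ^ n - 1) = x ^ 2).image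
              fun c => 1 + c * q.1).card : ℝ) ≤ (((Icc 1 X).filter fun c => ∃ x,
              ((c * q.2 + 1) ^ n - 1) * ((c * q.1 + 1) ^ n - 1) = x ^ 2).card : ℝ) := by
            exact_mod_cast Finset.card_image_le
          exact h2.trans (hC q hq X)
      _ = P.card * (ε1 * X) + ∑ q ∈ P, C q := by
          rw [Finset.sum_add_distrib, Finset.sum_const, nsmul_eq_mul]
  have hlarge : ∀ᶠ X : ℕ in atTop, (∑ q ∈ P, C q) / (ε / 2) ≤ (X : ℝ) :=
    tendsto_natCast_atTop_atTop.eventually_ge_atTop _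
  filter_upwards [hlarge] with X hX
  refine (hcount X).trans ?_
  rw [div_le_iff₀ (by positivity)] at hX
  have h1 : (P.card : ℝ) * (ε1 * X) ≤ ε / 2 * X := by
    have h2 : (P.card : ℝ) * ε1 ≤ ε / 2 := by
      rw [hε1, mul_div_assoc', div_le_div_iff₀ (by positivity) (by norm_num)]
      nlinarith [hε]
    calc (P.card : ℝ) * (ε1 * X) = (P.card * ε1) * X := by ring
      _ ≤ _ := mul_le_mul_of_nonneg_right h2 (Nat.cast_nonneg X)
  nlinarith

/-- A large `u` gives a large divisor composed of bad primes. -/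
lemma D_incl {n : ℕ} (hn : 0 < n) {δ : ℝ} (hδ : 0 < δ) :
    ∀ᶠ X : ℕ in atTop, ∀ b c m m' u s u' t : ℕ, Sol n b c m m' u s u' t →
      (X : ℝ) ^ (1 / 2 - δ) < u → DS (Hn n) (1 / 2 - 2 * δ) X b := by
  have hlarge : ∀ᶠ X : ℕ in atTop, (n : ℝ) ≤ (X : ℝ) ^ δ :=
    ((tendsto_rpow_atTop hδ).comp tendsto_natCast_atTop_atTop).eventually_ge_atTop _
  filter_upwards [hlarge, eventually_gt_atTop 0] with X hX hX0
  intro b c m m' u s u' t hS hu
  obtain ⟨h1, h2, h3⟩ := PF_prod (n := n) hn hS.hu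
  have hum : u ∣ m := by rw [← hS.em]; exact Dvd.intro_left _ rfl
  have hXpos : (0 : ℝ) < X := by exact_mod_cast hX0
  refine ⟨∏ p ∈ PF n u, p, hS.hu.squarefree_of_dvd h3, ?_, ?_, ?_⟩
  · rw [hS.hb, Nat.add_sub_cancel_left]
    exact (h3.trans hum).mul_left c
  · intro p hp hpd
    obtain ⟨q, hq, hpq⟩ := (Prime.dvd_finsetProd_iff hp.prime _).1 hpd
    obtain ⟨h4, h5⟩ := Finset.mem_filter.1 hq
    have hqp := Nat.prime_of_mem_primeFactors h4
    have : p = q := (Nat.prime_dvd_prime_iff_eq hp hqp).1 hpq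
    rw [← this] at h5 h4
    exact (hS.hp p hp h5 (Nat.dvd_of_mem_primeFactors h4)).1
  · have h4 : (u : ℝ) ≤ ((∏ p ∈ PF n u, p : ℕ) : ℝ) * n := by exact_mod_cast h1
    have h5 : (X : ℝ) ^ (1 / 2 - 2 * δ) * (X : ℝ) ^ δ = (X : ℝ) ^ (1 / 2 - δ) := by
      rw [← Real.rpow_add hXpos]
      congr 1
      ring
    have h6 : (X : ℝ) ^ (1 / 2 - 2 * δ) * (X : ℝ) ^ δ ≤
        ((∏ p ∈ PF n u, p : ℕ) : ℝ) * (X : ℝ) ^ δ := by
      rw [h5]
      refine hu.le.trans (h4.trans ?_)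
      exact mul_le_mul_of_nonneg_left hX (Nat.cast_nonneg _)
    exact le_of_mul_le_mul_right h6 (Real.rpow_pos_of_pos hXpos δ)

open Classical in
/-- The main theorem. -/
theorem density_bound {n : ℕ} (hn : 2 ≤ n) {ε : ℝ} (hε : 0 < ε) :
    ∀ᶠ X : ℕ in atTop, (((Icc 1 X).filter fun b => ∃ a x : ℕ, 2 ≤ a ∧ a < b ∧
      (a ^ n - 1) * (b ^ n - 1) = x ^ 2).card : ℝ) ≤
      ((1 / 2 + Real.log 2) * dens n + dens n ^ 2 + ε) * X := by
  have hn0 : 0 < n := by omega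
  -- the choice of `δ`
  obtain ⟨δ, hδ0, hδ8, hδ⟩ : ∃ δ : ℝ, 0 < δ ∧ δ < 1 / 8 ∧
      dens n * Real.log (1 / (1 / 2 - 2 * δ)) ≤ dens n * Real.log 2 + ε / 8 := by
    have hc : Tendsto (fun δ : ℝ => dens n * Real.log (1 / (1 / 2 - 2 * δ))) (𝓝 0)
        (𝓝 (dens n * Real.log (1 / (1 / 2 - 2 * 0)))) := by
      have h0 : (1 / 2 - 2 * (0 : ℝ)) ≠ 0 := by norm_num
      have h1 : 1 / (1 / 2 - 2 * (0 : ℝ)) ≠ 0 := by norm_num
      have hcont : ContinuousAt (fun δ : ℝ => dens n * Real.log (1 / (1 / 2 - 2 * δ))) 0 := by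
        refine continuousAt_const.mul (ContinuousAt.log ?_ h1)
        exact continuousAt_const.div (by fun_prop) h0
      exact hcont.tendsto
    have e : dens n * Real.log (1 / (1 / 2 - 2 * 0)) = dens n * Real.log 2 := by norm_num
    rw [e] at hc
    have hc' := hc.mono_left (nhdsWithin_le_nhds (s := Set.Ioi (0 : ℝ)))
    have h1 := hc'.eventually (gt_mem_nhds (show dens n * Real.log 2 <
      dens n * Real.log 2 + ε / 8 by linarith))
    have h2 : ∀ᶠ δ : ℝ in 𝓝[>] 0, δ < 1 / 8 :=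
      (gt_mem_nhds (show (0 : ℝ) < 1 / 8 by norm_num)).filter_mono nhdsWithin_le_nhds
    obtain ⟨δ, h3, h4, h5⟩ := (h1.and (h2.and self_mem_nhdsWithin)).exists
    exact ⟨δ, h5, h4, h3.le⟩
  -- the choice of `S0`
  obtain ⟨S0, hS0⟩ : ∃ S0 : ℕ, 2 / ((S0 : ℝ) + 1) ≤ ε / 8 := by
    obtain ⟨S0, hS0⟩ := exists_nat_gt (16 / ε)
    refine ⟨S0, ?_⟩
    rw [div_le_iff₀ (by positivity)]
    rw [div_lt_iff₀ hε] at hS0
    nlinarith
  obtain ⟨U0, hU0⟩ := C_bound hn0 hδ0 (by linarith) S0 (ε := ε / 8) (by positivity)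
  have hB := B_bound hn S0 U0 (ε := ε / 8) (by positivity)
  have hDi := D_incl hn0 hδ0
  have hD := D_bound (th_bad_tendsto hn0) (not_Hn_one n) (fun p h => h.1)
    (θ := 1 / 2 - 2 * δ) (by linarith) (by linarith) (ε := ε / 8) (by positivity)
  filter_upwards [hU0, hB, hDi, hD] with X hC hB hDi hD
  have hA := A_bound n S0 X
  have hsub : ((Icc 1 X).filter fun b => ∃ a x : ℕ, 2 ≤ a ∧ a < b ∧
      (a ^ n - 1) * (b ^ n - 1) = x ^ 2) ⊆
      ((Icc 2 X).filter fun b =>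
        ∃ c m m' u s u' t : ℕ, Sol n b c m m' u s u' t ∧ S0 < s) ∪
      ((Icc 2 X).filter fun b =>
        ∃ c m m' u s u' t : ℕ, Sol n b c m m' u s u' t ∧ s ≤ S0 ∧ u ≤ U0) ∪
      ((Icc 2 X).filter fun b => ∃ c m m' u s u' t : ℕ, Sol n b c m m' u s u' t ∧ s ≤ S0 ∧
        U0 < u ∧ (u : ℝ) ≤ (X : ℝ) ^ (1 / 2 - δ)) ∪
      ((Icc 2 X).filter fun b => DS (Hn n) (1 / 2 - 2 * δ) X b) := by
    intro b hb
    obtain ⟨h1, a, x, ha, hab, hx⟩ := Finset.mem_filter.1 hb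
    have h2 := Finset.mem_Icc.1 h1
    have h3 : b ∈ Icc 2 X := Finset.mem_Icc.2 ⟨by omega, h2.2⟩
    obtain ⟨c, m, m', u, s, u', t, hS⟩ := exists_sol hn0 ha hab hx
    rcases lt_or_ge S0 s with hs | hs
    · exact Finset.mem_union_left _ (Finset.mem_union_left _ (Finset.mem_union_left _
        (Finset.mem_filter.2 ⟨h3, c, m, m', u, s, u', t, hS, hs⟩)))
    rcases lt_or_ge U0 u with hu | hu
    · rcases le_or_gt (u : ℝ) ((X : ℝ) ^ (1 / 2 - δ)) with hu2 | hu2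
      · exact Finset.mem_union_left _ (Finset.mem_union_right _
          (Finset.mem_filter.2 ⟨h3, c, m, m', u, s, u', t, hS, hs, hu, hu2⟩))
      · exact Finset.mem_union_right _ (Finset.mem_filter.2
          ⟨h3, hDi b c m m' u s u' t hS hu2⟩)
    · exact Finset.mem_union_left _ (Finset.mem_union_left _ (Finset.mem_union_right _
        (Finset.mem_filter.2 ⟨h3, c, m, m', u, s, u', t, hS, hs, hu⟩)))
  have h1 := (Finset.card_le_card hsub).trans ((Finset.card_union_le _ _).trans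
    (Nat.add_le_add_right ((Finset.card_union_le _ _).trans
      (Nat.add_le_add_right (Finset.card_union_le _ _) _)) _))
  have h2 : (((Icc 1 X).filter fun b => ∃ a x : ℕ, 2 ≤ a ∧ a < b ∧
      (a ^ n - 1) * (b ^ n - 1) = x ^ 2).card : ℝ) ≤
      (((Icc 2 X).filter fun b =>
        ∃ c m m' u s u' t : ℕ, Sol n b c m m' u s u' t ∧ S0 < s).card : ℝ) +
      (((Icc 2 X).filter fun b =>
        ∃ c m m' u s u' t : ℕ, Sol n b c m m' u s u' t ∧ s ≤ S0 ∧ u ≤ U0).card : ℝ) +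
      (((Icc 2 X).filter fun b => ∃ c m m' u s u' t : ℕ, Sol n b c m m' u s u' t ∧ s ≤ S0 ∧
        U0 < u ∧ (u : ℝ) ≤ (X : ℝ) ^ (1 / 2 - δ)).card : ℝ) +
      (((Icc 2 X).filter fun b => DS (Hn n) (1 / 2 - 2 * δ) X b).card : ℝ) := by
    exact_mod_cast h1
  have hX0 : (0 : ℝ) ≤ X := Nat.cast_nonneg X
  have hA' : (((Icc 2 X).filter fun b =>
      ∃ c m m' u s u' t : ℕ, Sol n b c m m' u s u' t ∧ S0 < s).card : ℝ) ≤ ε / 8 * X :=
    hA.trans (mul_le_mul_of_nonneg_right hS0 hX0)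
  have hfin : (dens n * Real.log (1 / (1 / 2 - 2 * δ)) + dens n / 2 + dens n ^ 2 + ε / 8) * X ≤
      ((1 / 2 + Real.log 2) * dens n + dens n ^ 2 + ε / 4) * X := by
    apply mul_le_mul_of_nonneg_right _ hX0
    nlinarith
  nlinarith

end Pool.Agent.Cohn
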