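import Pool.Agent.Cohn.Classes

/-!
Local structure of the solutions of `(a ^ n - 1) (b ^ n - 1) = x ^ 2`.
-/

set_option autoImplicit false

open Finset

namespace Pool.Agent.Cohn

lemma geom_mod {p β n : ℕ} (hp : p.Prime) (hβ : p ∣ β) (hn : ¬ p ∣ n) :
    ¬ p ∣ ∑ i ∈ range n, (β + 1) ^ i := by
  intro h
  apply hn
  have : Fact p.Prime := ⟨hp⟩
  rw [← ZMod.natCast_eq_zero_iff] at h hβ ⊢
  push_cast at h
  rw [hβ, zero_add] at h
  simpa using h

/-- One step of the local analysis. -/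
lemma local1 {n α β c m m' x p : ℕ} (hp : p.Prime) (hpn : ¬ p ∣ n) (hn : 0 < n)
    (hα : α = c * m') (hβ : β = c * m) (hc : 0 < c) (hm : 0 < m) (hm' : 0 < m')
    (hco : Nat.Coprime m m') (hx : ((α + 1) ^ n - 1) * ((β + 1) ^ n - 1) = x ^ 2)
    (hodd : Odd (padicValNat p m)) :
    p ∣ (α + 1) ^ n - 1 ∧ ¬ Nat.Coprime (p - 1) n := by
  have : Fact p.Prime := ⟨hp⟩
  have hα0 : 0 < α := by rw [hα]; positivity
  have hβ0 : 0 < β := by rw [hβ]; positivity
  set A := ∑ i ∈ range n, (α + 1) ^ i with hA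
  set B := ∑ i ∈ range n, (β + 1) ^ i with hB
  have eA : (α + 1) ^ n - 1 = A * α := by
    rw [← geom_sum_mul_add α n, Nat.add_sub_cancel]
  have eB : (β + 1) ^ n - 1 = B * β := by
    rw [← geom_sum_mul_add β n, Nat.add_sub_cancel]
  have hA0 : 0 < A := by
    rw [hA]
    exact Finset.sum_pos (fun i _ => by positivity) ⟨0, Finset.mem_range.2 hn⟩
  have hB0 : 0 < B := by
    rw [hB]
    exact Finset.sum_pos (fun i _ => by positivity) ⟨0, Finset.mem_range.2 hn⟩
  have hpm : p ∣ m := by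
    by_contra h
    rw [padicValNat.eq_zero_of_not_dvd h] at hodd
    exact absurd hodd (by decide)
  have hpβ : p ∣ β := by rw [hβ]; exact hpm.mul_left c
  have hvB : padicValNat p B = 0 := padicValNat.eq_zero_of_not_dvd (geom_mod hp hpβ hpn)
  have hpm' : ¬ p ∣ m' := by
    intro h
    have := Nat.dvd_gcd hpm h
    rw [hco] at this
    exact hp.one_lt.ne' (Nat.dvd_one.1 this)
  have hvm' : padicValNat p m' = 0 := padicValNat.eq_zero_of_not_dvd hpm'
  have hx0 : x ≠ 0 := by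
    rintro rfl
    rw [eA, eB] at hx
    have : 0 < A * α * (B * β) := by positivity
    rw [hx] at this
    simp at this
  have hv : padicValNat p A + padicValNat p α + (padicValNat p B + padicValNat p β) =
      2 * padicValNat p x := by
    have h := congrArg (padicValNat p) hx
    rw [eA, eB, padicValNat.mul (by positivity) (by positivity),
      padicValNat.mul hA0.ne' hα0.ne', padicValNat.mul hB0.ne' hβ0.ne',
      padicValNat.pow] at h
    exact h
  have hvβ : padicValNat p β = padicValNat p c + padicValNat p m := by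
    rw [hβ, padicValNat.mul hc.ne' hm.ne']
  have hvα : padicValNat p α = padicValNat p c := by
    rw [hα, padicValNat.mul hc.ne' hm'.ne', hvm', add_zero]
  rw [hvB, hvβ, hvα] at hv
  obtain ⟨k, hk⟩ := hodd
  have hpα : ¬ p ∣ α := by
    intro h
    have hvA : padicValNat p A = 0 := padicValNat.eq_zero_of_not_dvd (geom_mod hp h hpn)
    omega
  have hvc : padicValNat p c = 0 := by
    rw [← hvα]
    exact padicValNat.eq_zero_of_not_dvd hpα
  have hpA : p ∣ A := by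
    by_contra h
    have := padicValNat.eq_zero_of_not_dvd h
    omega
  have hd : p ∣ (α + 1) ^ n - 1 := by rw [eA]; exact hpA.mul_right α
  refine ⟨hd, fun hcop => hpα ?_⟩
  -- the order of `α + 1`
  have h1 : ((α + 1 : ℕ) : ZMod p) ^ n = 1 := by
    have h2 : (((α + 1) ^ n - 1 : ℕ) : ZMod p) = 0 := (ZMod.natCast_eq_zero_iff _ _).2 hd
    rw [Nat.cast_sub (Nat.one_le_pow _ _ (Nat.succ_pos _))] at h2
    push_cast at h2 ⊢
    exact sub_eq_zero.1 h2
  have hu : IsUnit ((α + 1 : ℕ) : ZMod p) := IsUnit.of_pow_eq_one h1 hn.ne'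
  obtain ⟨z, hz⟩ := hu
  have hz1 : z ^ n = 1 := by
    ext
    push_cast
    rw [hz]
    exact h1
  have ho1 : orderOf z ∣ n := orderOf_dvd_of_pow_eq_one hz1
  have ho2 : orderOf z ∣ p - 1 := ZMod.orderOf_units_dvd_card_sub_one z
  have ho : orderOf z = 1 := by
    have := Nat.dvd_gcd ho2 ho1
    rw [hcop] at this
    exact Nat.dvd_one.1 this
  rw [orderOf_eq_one_iff] at ho
  rw [ho] at hz
  have h3 : ((α : ℕ) : ZMod p) = 0 := by
    push_cast at hz
    have : (1 : ZMod p) = (α : ZMod p) + 1 := hz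
    linear_combination (-1 : ZMod p) * this
  exact (ZMod.natCast_eq_zero_iff _ _).1 h3

lemma odd_val_of_dvd {p u s m : ℕ} (hp : p.Prime) (hu : Squarefree u) (hm : s ^ 2 * u = m)
    (hm0 : 0 < m) (h : p ∣ u) : Odd (padicValNat p m) := by
  have : Fact p.Prime := ⟨hp⟩
  have hs0 : s ≠ 0 := by
    rintro rfl
    simp at hm
    omega
  have hu0 : u ≠ 0 := hu.ne_zero
  have h1 : padicValNat p u = 1 := by
    have h2 : padicValNat p u ≤ 1 := by
      have := hu.natFactorization_le_one p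
      rwa [Nat.factorization_def u hp] at this
    have h3 : 1 ≤ padicValNat p u := one_le_padicValNat_of_dvd hu0 h
    omega
  refine ⟨padicValNat p s, ?_⟩
  rw [← hm, padicValNat.mul (pow_ne_zero 2 hs0) hu0, padicValNat.pow, h1]

/-- The structure of a solution. -/
structure Sol (n b c m m' u s u' t : ℕ) : Prop where
  hb : b = 1 + c * m
  hc : 0 < c
  hm' : 0 < m'
  hmm : m' < m
  hco : Nat.Coprime m m'
  hx : ∃ x, ((c * m' + 1) ^ n - 1) * ((c * m + 1) ^ n - 1) = x ^ 2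
  hu : Squarefree u
  hu' : Squarefree u'
  em : s ^ 2 * u = m
  em' : t ^ 2 * u' = m'
  hp : ∀ p : ℕ, p.Prime → ¬ p ∣ n → p ∣ u → Hn n p ∧ p ∣ (c * m' + 1) ^ n - 1
  hp' : ∀ p : ℕ, p.Prime → ¬ p ∣ n → p ∣ u' → Hn n p ∧ p ∣ (c * m + 1) ^ n - 1

lemma exists_sol {n a b x : ℕ} (hn : 0 < n) (ha : 2 ≤ a) (hab : a < b)
    (hx : (a ^ n - 1) * (b ^ n - 1) = x ^ 2) :
    ∃ c m m' u s u' t : ℕ, Sol n b c m m' u s u' t := by
  obtain ⟨α, rfl⟩ : ∃ α, a = α + 1 := ⟨a - 1, by omega⟩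
  obtain ⟨β, rfl⟩ : ∃ β, b = β + 1 := ⟨b - 1, by omega⟩
  have hα : 0 < α := by omega
  have hβ : 0 < β := by omega
  obtain ⟨c, hcdef⟩ : ∃ c, c = Nat.gcd β α := ⟨_, rfl⟩
  have hc : 0 < c := by rw [hcdef]; exact Nat.gcd_pos_of_pos_left _ hβ
  obtain ⟨m, hm⟩ : c ∣ β := hcdef ▸ Nat.gcd_dvd_left β α
  obtain ⟨m', hm'⟩ : c ∣ α := hcdef ▸ Nat.gcd_dvd_right β α
  have hco : Nat.Coprime m m' := by
    have h1 : Nat.gcd (c * m) (c * m') = c := by rw [← hm, ← hm', hcdef]
    rw [Nat.gcd_mul_left] at h1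
    exact Nat.eq_of_mul_eq_mul_left hc (by rw [h1, mul_one])
  have hm0 : 0 < m := by
    rcases Nat.eq_zero_or_pos m with h | h
    · rw [h, mul_zero] at hm; omega
    · exact h
  have hm'0 : 0 < m' := by
    rcases Nat.eq_zero_or_pos m' with h | h
    · rw [h, mul_zero] at hm'; omega
    · exact h
  have hmm : m' < m := by
    have h1 : c * m' < c * m := by rw [← hm, ← hm']; omega
    exact lt_of_mul_lt_mul_left h1 (Nat.zero_le c)
  obtain ⟨u, s, em, hu⟩ := Nat.sq_mul_squarefree m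
  obtain ⟨u', t, em', hu'⟩ := Nat.sq_mul_squarefree m'
  have hx' : ((β + 1) ^ n - 1) * ((α + 1) ^ n - 1) = x ^ 2 := by rw [mul_comm]; exact hx
  refine ⟨c, m, m', u, s, u', t, ?_, hc, hm'0, hmm, hco, ⟨x, ?_⟩, hu, hu', em, em', ?_, ?_⟩
  · rw [hm]; ring
  · rw [← hm, ← hm']; exact hx
  · intro p hp hpn hpu
    have h := local1 hp hpn hn hm' hm hc hm0 hm'0 hco hx (odd_val_of_dvd hp hu em hm0 hpu)
    rw [← hm']
    exact ⟨(Hn_iff hn hp).2 ⟨hpn, h.2⟩, h.1⟩
  · intro p hp hpn hpu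
    have h := local1 hp hpn hn hm hm' hc hm'0 hm0 hco.symm hx'
      (odd_val_of_dvd hp hu' em' hm'0 hpu)
    rw [← hm]
    exact ⟨(Hn_iff hn hp).2 ⟨hpn, h.2⟩, h.1⟩

end Pool.Agent.Cohn
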