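import Pool.Agent.Cohn.Omega

/-!
The middle range.
-/

set_option autoImplicit false

open Filter Topology Finset

namespace Pool.Agent.Cohn

/-- The pairs `(t, u')` with `t ^ 2 u' < M`. -/
def II (M : ℕ) : Finset (ℕ × ℕ) := (Icc 1 M ×ˢ Icc 1 M).filter fun q => q.1 ^ 2 * q.2 < M

lemma II_card (M : ℕ) : ((II M).card : ℝ) ≤ 2 * M := by
  classical
  have h1 : (II M).card ≤ ∑ t ∈ Icc 1 M, ((Icc 1 M).filter fun v => t ^ 2 * v < M).card := by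
    unfold II
    rw [Finset.card_filter, Finset.sum_product]
    exact le_of_eq (Finset.sum_congr rfl fun t _ => (Finset.card_filter _ _).symm)
  have h2 : ∀ t ∈ Icc 1 M, ((((Icc 1 M).filter fun v => t ^ 2 * v < M).card : ℕ) : ℝ) ≤
      M * ((t : ℝ) ^ 2)⁻¹ := by
    intro t ht
    have ht1 := (Finset.mem_Icc.1 ht).1
    have ht0 : (0 : ℝ) < t := by exact_mod_cast ht1
    have h3 : ((Icc 1 M).filter fun v => t ^ 2 * v < M) ⊆ Icc 1 (M / t ^ 2) := by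
      intro v hv
      obtain ⟨h4, h5⟩ := Finset.mem_filter.1 hv
      refine Finset.mem_Icc.2 ⟨(Finset.mem_Icc.1 h4).1, ?_⟩
      rw [Nat.le_div_iff_mul_le (by positivity)]
      rw [mul_comm]
      exact h5.le
    calc ((((Icc 1 M).filter fun v => t ^ 2 * v < M).card : ℕ) : ℝ)
        ≤ ((Icc 1 (M / t ^ 2)).card : ℝ) := by exact_mod_cast Finset.card_le_card h3
      _ = ((M / t ^ 2 : ℕ) : ℝ) := by rw [Nat.card_Icc, Nat.add_sub_cancel]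
      _ ≤ (M : ℝ) / ((t ^ 2 : ℕ) : ℝ) := Nat.cast_div_le
      _ = M * ((t : ℝ) ^ 2)⁻¹ := by push_cast; rw [div_eq_mul_inv]
  have h3 : ∑ t ∈ Icc 1 M, ((t : ℝ) ^ 2)⁻¹ ≤ 2 := by
    have h4 := sum_Ioo_inv_sq_le (α := ℝ) 0 (M + 1)
    have h5 : Ioo 0 (M + 1) = Icc 1 M := by
      ext k
      rw [Finset.mem_Ioo, Finset.mem_Icc]
      omega
    rw [h5] at h4
    simpa using h4
  calc ((II M).card : ℝ) ≤ ∑ t ∈ Icc 1 M, ((((Icc 1 M).filter fun v => t ^ 2 * v < M).card : ℕ) : ℝ) := by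
        exact_mod_cast h1
    _ ≤ ∑ t ∈ Icc 1 M, M * ((t : ℝ) ^ 2)⁻¹ := Finset.sum_le_sum h2
    _ = M * ∑ t ∈ Icc 1 M, ((t : ℝ) ^ 2)⁻¹ := by rw [Finset.mul_sum]
    _ ≤ M * 2 := mul_le_mul_of_nonneg_left h3 (Nat.cast_nonneg M)
    _ = 2 * M := mul_comm _ _

lemma summable54 : Summable fun k : ℕ => (k : ℝ) ^ (-(5 / 4) : ℝ) :=
  Real.summable_nat_rpow.2 (by norm_num)

lemma II_sum (M : ℕ) : ∑ q ∈ II M, (q.2 : ℝ) ^ (-(3 / 4) : ℝ) ≤
    Real.sqrt M * ∑' k : ℕ, (k : ℝ) ^ (-(5 / 4) : ℝ) := by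
  classical
  have h1 : ∑ q ∈ II M, (q.2 : ℝ) ^ (-(3 / 4) : ℝ) =
      ∑ v ∈ Icc 1 M, (((Icc 1 M).filter fun t => t ^ 2 * v < M).card : ℝ) *
        (v : ℝ) ^ (-(3 / 4) : ℝ) := by
    unfold II
    rw [Finset.sum_filter, Finset.sum_product, Finset.sum_comm]
    refine Finset.sum_congr rfl fun v _ => ?_
    rw [← Finset.sum_filter]
    change ∑ a ∈ (Icc 1 M).filter (fun a => a ^ 2 * v < M), (v : ℝ) ^ (-(3 / 4) : ℝ) = _
    rw [Finset.sum_const, nsmul_eq_mul]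
  rw [h1]
  have h2 : ∀ v ∈ Icc 1 M, (((Icc 1 M).filter fun t => t ^ 2 * v < M).card : ℝ) *
      (v : ℝ) ^ (-(3 / 4) : ℝ) ≤ Real.sqrt M * (v : ℝ) ^ (-(5 / 4) : ℝ) := by
    intro v hv
    have hv1 := (Finset.mem_Icc.1 hv).1
    have hv0 : (0 : ℝ) < v := by exact_mod_cast hv1
    have h3 : ((Icc 1 M).filter fun t => t ^ 2 * v < M) ⊆ Icc 1 ⌊Real.sqrt (M / v)⌋₊ := by
      intro t ht
      obtain ⟨h4, h5⟩ := Finset.mem_filter.1 ht
      refine Finset.mem_Icc.2 ⟨(Finset.mem_Icc.1 h4).1, Nat.le_floor ?_⟩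
      apply Real.le_sqrt_of_sq_le
      rw [le_div_iff₀ hv0]
      exact_mod_cast h5.le
    have h4 : (((Icc 1 M).filter fun t => t ^ 2 * v < M).card : ℝ) ≤ Real.sqrt (M / v) := by
      calc (((Icc 1 M).filter fun t => t ^ 2 * v < M).card : ℝ)
          ≤ ((Icc 1 ⌊Real.sqrt (M / v)⌋₊).card : ℝ) := by exact_mod_cast Finset.card_le_card h3
        _ = (⌊Real.sqrt (M / v)⌋₊ : ℝ) := by rw [Nat.card_Icc, Nat.add_sub_cancel]
        _ ≤ Real.sqrt (M / v) := Nat.floor_le (Real.sqrt_nonneg _)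
    have h5 : Real.sqrt (M / v) * (v : ℝ) ^ (-(3 / 4) : ℝ) =
        Real.sqrt M * (v : ℝ) ^ (-(5 / 4) : ℝ) := by
      rw [Real.sqrt_div (Nat.cast_nonneg M), div_mul_eq_mul_div, mul_div_assoc]
      congr 1
      rw [Real.sqrt_eq_rpow, ← Real.rpow_sub hv0]
      norm_num
    rw [← h5]
    exact mul_le_mul_of_nonneg_right h4 (by positivity)
  calc ∑ v ∈ Icc 1 M, (((Icc 1 M).filter fun t => t ^ 2 * v < M).card : ℝ) *
        (v : ℝ) ^ (-(3 / 4) : ℝ)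
      ≤ ∑ v ∈ Icc 1 M, Real.sqrt M * (v : ℝ) ^ (-(5 / 4) : ℝ) := Finset.sum_le_sum h2
    _ = Real.sqrt M * ∑ v ∈ Icc 1 M, (v : ℝ) ^ (-(5 / 4) : ℝ) := by rw [Finset.mul_sum]
    _ ≤ Real.sqrt M * ∑' k : ℕ, (k : ℝ) ^ (-(5 / 4) : ℝ) := by
        apply mul_le_mul_of_nonneg_left _ (Real.sqrt_nonneg _)
        exact summable54.sum_le_tsum _ fun k _ => by positivity

open Classical in
/-- The numbers `c` for given data. -/
noncomputable def TT (n X s u t v : ℕ) : Finset ℕ :=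
  (Icc 1 (X / (s ^ 2 * u))).filter fun c =>
    Sol n (1 + c * (s ^ 2 * u)) c (s ^ 2 * u) (t ^ 2 * v) u s v t

lemma TT_card {n : ℕ} (hn : 0 < n) {C4 Cη η : ℝ} (hC4 : 1 ≤ C4) (hCη : 1 ≤ Cη) (hη : 0 < η)
    (h4 : ∀ P : Finset ℕ, (∀ p ∈ P, 0 < p) →
      (n : ℝ) ^ P.card ≤ C4 * ((∏ p ∈ P, p : ℕ) : ℝ) ^ (1 / 4 : ℝ))
    (hh : ∀ P : Finset ℕ, (∀ p ∈ P, 0 < p) →
      (n : ℝ) ^ P.card ≤ Cη * ((∏ p ∈ P, p : ℕ) : ℝ) ^ η) (X s u t v : ℕ) :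
    ((TT n X s u t v).card : ℝ) ≤
      C4 * (n : ℝ) ^ (3 / 2 : ℝ) * X / (s ^ 2 * u) * ((u : ℝ) ^ (-(3 / 4) : ℝ) *
        (v : ℝ) ^ (-(3 / 4) : ℝ)) + Cη * ((u : ℝ) * v) ^ η := by
  classical
  rcases (TT n X s u t v).eq_empty_or_nonempty with he | ⟨c0, hc0⟩
  · rw [he, Finset.card_empty, Nat.cast_zero]
    positivity
  · have hc1 := (Finset.mem_filter.1 hc0).2
    obtain ⟨P, hP0, hP1, hP2, hP3⟩ := sol_count (L := X / (s ^ 2 * u)) hn ⟨c0, hc1⟩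
    have hcard := hP3 (fun c => Sol n (1 + c * (s ^ 2 * u)) c (s ^ 2 * u) (t ^ 2 * v) u s v t)
      (fun c h => h)
    have hcard' : ((TT n X s u t v).card : ℝ) ≤
        ((X / (s ^ 2 * u) / (∏ p ∈ P, p) : ℕ) + 1) * (n : ℝ) ^ P.card := by
      unfold TT
      exact_mod_cast hcard
    set N := ∏ p ∈ P, p with hN
    have hN0 : 0 < N := Finset.prod_pos hP0
    have hN0' : (0 : ℝ) < N := by exact_mod_cast hN0
    have hu0 : 0 < u := Nat.pos_of_ne_zero hc1.hu.ne_zero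
    have hv0 : 0 < v := Nat.pos_of_ne_zero hc1.hu'.ne_zero
    have hu0' : (0 : ℝ) < u := by exact_mod_cast hu0
    have hv0' : (0 : ℝ) < v := by exact_mod_cast hv0
    have hn0' : (0 : ℝ) < n := by exact_mod_cast hn
    have hdiv : ((X / (s ^ 2 * u) / N : ℕ) : ℝ) ≤ (X : ℝ) / (s ^ 2 * u) / N := by
      refine Nat.cast_div_le.trans ?_
      apply div_le_div_of_nonneg_right _ hN0'.le
      refine Nat.cast_div_le.trans (le_of_eq ?_)
      push_cast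
      rfl
    have hNle : (N : ℝ) ≤ (u : ℝ) * v := by exact_mod_cast hP2
    have hNge : (u : ℝ) * v ≤ N * (n : ℝ) ^ 2 := by exact_mod_cast hP1
    have hpow : (N : ℝ) ^ (-(3 / 4) : ℝ) ≤
        (n : ℝ) ^ (3 / 2 : ℝ) * ((u : ℝ) ^ (-(3 / 4) : ℝ) * (v : ℝ) ^ (-(3 / 4) : ℝ)) := by
      have h5 : (N * (n : ℝ) ^ 2) ^ (-(3 / 4) : ℝ) ≤ ((u : ℝ) * v) ^ (-(3 / 4) : ℝ) :=
        Real.rpow_le_rpow_of_nonpos (by positivity) hNge (by norm_num)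
      have h6 : (N * (n : ℝ) ^ 2) ^ (-(3 / 4) : ℝ) =
          (N : ℝ) ^ (-(3 / 4) : ℝ) * (n : ℝ) ^ (-(3 / 2) : ℝ) := by
        rw [Real.mul_rpow hN0'.le (by positivity)]
        congr 1
        rw [← Real.rpow_natCast, ← Real.rpow_mul hn0'.le]
        norm_num
      have h7 : (n : ℝ) ^ (3 / 2 : ℝ) * (n : ℝ) ^ (-(3 / 2) : ℝ) = 1 := by
        rw [← Real.rpow_add hn0']
        norm_num
      rw [h6, Real.mul_rpow hu0'.le hv0'.le] at h5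
      calc (N : ℝ) ^ (-(3 / 4) : ℝ) =
          (n : ℝ) ^ (3 / 2 : ℝ) * ((N : ℝ) ^ (-(3 / 4) : ℝ) * (n : ℝ) ^ (-(3 / 2) : ℝ)) := by
            rw [mul_left_comm, h7, mul_one]
        _ ≤ _ := mul_le_mul_of_nonneg_left h5 (by positivity)
    calc ((TT n X s u t v).card : ℝ)
        ≤ ((X / (s ^ 2 * u) / N : ℕ) + 1) * (n : ℝ) ^ P.card := hcard'
      _ ≤ ((X : ℝ) / (s ^ 2 * u) / N + 1) * (n : ℝ) ^ P.card := by
          apply mul_le_mul_of_nonneg_right _ (by positivity)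
          linarith
      _ = (X : ℝ) / (s ^ 2 * u) / N * (n : ℝ) ^ P.card + (n : ℝ) ^ P.card := by ring
      _ ≤ (X : ℝ) / (s ^ 2 * u) / N * (C4 * (N : ℝ) ^ (1 / 4 : ℝ)) + Cη * (N : ℝ) ^ η := by
          apply add_le_add _ (hh P hP0)
          exact mul_le_mul_of_nonneg_left (h4 P hP0) (by positivity)
      _ = C4 * X / (s ^ 2 * u) * (N : ℝ) ^ (-(3 / 4) : ℝ) + Cη * (N : ℝ) ^ η := by
          congr 1
          have h8 : (N : ℝ) ^ (-(3 / 4) : ℝ) = (N : ℝ) ^ (1 / 4 : ℝ) / N := by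
            rw [show (-(3 / 4) : ℝ) = 1 / 4 - 1 by norm_num, Real.rpow_sub hN0', Real.rpow_one]
          rw [h8]
          ring
      _ ≤ C4 * X / (s ^ 2 * u) * ((n : ℝ) ^ (3 / 2 : ℝ) * ((u : ℝ) ^ (-(3 / 4) : ℝ) *
            (v : ℝ) ^ (-(3 / 4) : ℝ))) + Cη * ((u : ℝ) * v) ^ η := by
          apply add_le_add
          · exact mul_le_mul_of_nonneg_left hpow (by positivity)
          · exact mul_le_mul_of_nonneg_left (Real.rpow_le_rpow hN0'.le hNle hη.le) (by positivity)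
      _ = _ := by ring

/-- Small tails. -/
lemma tail54 {ε : ℝ} (hε : 0 < ε) :
    ∃ U0 : ℕ, ∀ Y : ℕ, ∑ u ∈ Ioc U0 Y, (u : ℝ) ^ (-(5 / 4) : ℝ) ≤ ε := by
  have hc := summable54.hasSum.tendsto_sum_nat
  obtain ⟨N0, hN0⟩ := Metric.tendsto_atTop.1 hc (ε / 2) (by linarith)
  refine ⟨N0, fun Y => ?_⟩
  rcases le_or_gt N0 Y with hle | hlt
  · have d1 := hN0 (Y + 1) (by omega)
    have d2 := hN0 (N0 + 1) (by omega)
    rw [Real.dist_eq] at d1 d2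
    have e : ∑ k ∈ range (Y + 1), (k : ℝ) ^ (-(5 / 4) : ℝ) =
        ∑ k ∈ range (N0 + 1), (k : ℝ) ^ (-(5 / 4) : ℝ) +
        ∑ k ∈ Ioc N0 Y, (k : ℝ) ^ (-(5 / 4) : ℝ) := by
      rw [← Finset.sum_range_add_sum_Ico _ (Nat.succ_le_succ hle)]
      congr 1
      refine Finset.sum_congr ?_ fun _ _ => rfl
      ext k
      rw [Finset.mem_Ico, Finset.mem_Ioc]
      omega
    have e1 := abs_lt.1 d1
    have e2 := abs_lt.1 d2
    linarith [e1.1, e1.2, e2.1, e2.2]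
  · rw [Finset.Ioc_eq_empty (by omega), Finset.sum_empty]
    exact hε.le

open Classical in
/-- The middle range is negligible. -/
lemma C_bound {n : ℕ} (hn : 0 < n) {δ : ℝ} (hδ : 0 < δ) (hδ2 : δ < 1 / 2) (S0 : ℕ) {ε : ℝ}
    (hε : 0 < ε) : ∃ U0 : ℕ, ∀ᶠ X : ℕ in atTop, (((Icc 2 X).filter fun b =>
      ∃ c m m' u s u' t : ℕ, Sol n b c m m' u s u' t ∧ s ≤ S0 ∧ U0 < u ∧
        (u : ℝ) ≤ (X : ℝ) ^ (1 / 2 - δ)).card : ℝ) ≤ ε * X := by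
  obtain ⟨C4, hC4, h4⟩ := pow_card_le (n := n) hn (η := 1 / 4) (by norm_num)
  obtain ⟨Cη, hCη, hh⟩ := pow_card_le (n := n) hn hδ
  set Z := ∑' k : ℕ, (k : ℝ) ^ (-(5 / 4) : ℝ) with hZ
  have hZ0 : 0 ≤ Z := tsum_nonneg fun k => by positivity
  set K1 := C4 * (n : ℝ) ^ (3 / 2 : ℝ) * Z * S0 with hK1
  have hK10 : 0 ≤ K1 := by positivity
  obtain ⟨U0, hU0⟩ := tail54 (ε := ε / (2 * (K1 + 1))) (by positivity)
  refine ⟨U0, ?_⟩
  set K2 := 2 * Cη * (S0 : ℝ) ^ 3 * ((S0 : ℝ) ^ 2) ^ δ with hK2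
  have hK20 : 0 ≤ K2 := by positivity
  -- the error term
  have herr : ∀ᶠ X : ℕ in atTop, K2 * (X : ℝ) ^ (1 - δ) ≤ ε / 2 * X := by
    have h1 : Tendsto (fun X : ℕ => (X : ℝ) ^ δ) atTop atTop :=
      (tendsto_rpow_atTop hδ).comp tendsto_natCast_atTop_atTop
    filter_upwards [h1.eventually_ge_atTop (K2 / (ε / 2)), eventually_gt_atTop 0] with X hX hX0
    have hX0' : (0 : ℝ) < X := by exact_mod_cast hX0
    rw [div_le_iff₀ (by linarith)] at hX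
    have h2 : (X : ℝ) ^ (1 - δ) * (X : ℝ) ^ δ = X := by
      rw [← Real.rpow_add hX0']
      simp
    calc K2 * (X : ℝ) ^ (1 - δ) ≤ ((X : ℝ) ^ δ * (ε / 2)) * (X : ℝ) ^ (1 - δ) :=
          mul_le_mul_of_nonneg_right hX (by positivity)
      _ = ε / 2 * ((X : ℝ) ^ (1 - δ) * (X : ℝ) ^ δ) := by ring
      _ = ε / 2 * X := by rw [h2]
  filter_upwards [herr, eventually_ge_atTop 1] with X hX hX1
  have hX1' : (1 : ℝ) ≤ X := by exact_mod_cast hX1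
  have hX0' : (0 : ℝ) < X := by linarith
  set Y : ℕ := ⌊(X : ℝ) ^ (1 / 2 - δ)⌋₊ with hY
  have hYle : (Y : ℝ) ≤ (X : ℝ) ^ (1 / 2 - δ) := Nat.floor_le (by positivity)
  -- the covering
  have hsub : ((Icc 2 X).filter fun b => ∃ c m m' u s u' t : ℕ, Sol n b c m m' u s u' t ∧ s ≤ S0 ∧
      U0 < u ∧ (u : ℝ) ≤ (X : ℝ) ^ (1 / 2 - δ)) ⊆
      (Icc 1 S0).biUnion fun s => (Ioc U0 Y).biUnion fun u => (II (s ^ 2 * u)).biUnion fun q =>
        (TT n X s u q.1 q.2).image fun c => 1 + c * (s ^ 2 * u) := by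
    intro b hb
    obtain ⟨hb1, c, m, m', u, s, u', t, hS, hs, hu, huX⟩ := Finset.mem_filter.1 hb
    obtain ⟨hb2, hb3⟩ := Finset.mem_Icc.1 hb1
    have hm0 : 0 < m := lt_trans hS.hm' hS.hmm
    have hs0 : 0 < s := by
      rcases Nat.eq_zero_or_pos s with h | h
      · have := hS.em
        rw [h] at this
        simp at this
        omega
      · exact h
    have ht0 : 0 < t := by
      rcases Nat.eq_zero_or_pos t with h | h
      · have := hS.em'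
        have h2 := hS.hm'
        rw [h] at this
        simp at this
        omega
      · exact h
    have hu0 : 0 < u := Nat.pos_of_ne_zero hS.hu.ne_zero
    have hu'0 : 0 < u' := Nat.pos_of_ne_zero hS.hu'.ne_zero
    have hlt : t ^ 2 * u' < s ^ 2 * u := by rw [hS.em, hS.em']; exact hS.hmm
    refine Finset.mem_biUnion.2 ⟨s, Finset.mem_Icc.2 ⟨hs0, hs⟩, Finset.mem_biUnion.2 ⟨u,
      Finset.mem_Ioc.2 ⟨hu, Nat.le_floor huX⟩, Finset.mem_biUnion.2 ⟨(t, u'), ?_, ?_⟩⟩⟩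
    · refine Finset.mem_filter.2 ⟨Finset.mem_product.2 ⟨?_, ?_⟩, hlt⟩
      · refine Finset.mem_Icc.2 ⟨ht0, ?_⟩
        show t ≤ s ^ 2 * u
        nlinarith
      · refine Finset.mem_Icc.2 ⟨hu'0, ?_⟩
        show u' ≤ s ^ 2 * u
        have h1t : 1 ≤ t ^ 2 := Nat.one_le_pow _ _ ht0
        nlinarith
    · refine Finset.mem_image.2 ⟨c, ?_, ?_⟩
      · unfold TT
        refine Finset.mem_filter.2 ⟨Finset.mem_Icc.2 ⟨hS.hc, ?_⟩, ?_⟩
        · rw [Nat.le_div_iff_mul_le (by positivity), hS.em]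
          have := hS.hb
          omega
        · show Sol n (1 + c * (s ^ 2 * u)) c (s ^ 2 * u) (t ^ 2 * u') u s u' t
          rw [hS.em, hS.em', ← hS.hb]
          exact hS
      · show 1 + c * (s ^ 2 * u) = b
        rw [hS.em, ← hS.hb]
  -- the count
  have hcount : (((Icc 2 X).filter fun b => ∃ c m m' u s u' t : ℕ, Sol n b c m m' u s u' t ∧
      s ≤ S0 ∧ U0 < u ∧ (u : ℝ) ≤ (X : ℝ) ^ (1 / 2 - δ)).card : ℝ) ≤
      ∑ s ∈ Icc 1 S0, ∑ u ∈ Ioc U0 Y, ∑ q ∈ II (s ^ 2 * u), ((TT n X s u q.1 q.2).card : ℝ) := by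
    have h1 := Finset.card_le_card hsub
    have h2 : ((Icc 1 S0).biUnion fun s => (Ioc U0 Y).biUnion fun u =>
        (II (s ^ 2 * u)).biUnion fun q =>
        (TT n X s u q.1 q.2).image fun c => 1 + c * (s ^ 2 * u)).card ≤
        ∑ s ∈ Icc 1 S0, ∑ u ∈ Ioc U0 Y, ∑ q ∈ II (s ^ 2 * u), (TT n X s u q.1 q.2).card := by
      refine Finset.card_biUnion_le.trans (Finset.sum_le_sum fun s _ => ?_)
      refine Finset.card_biUnion_le.trans (Finset.sum_le_sum fun u _ => ?_)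
      refine Finset.card_biUnion_le.trans (Finset.sum_le_sum fun q _ => ?_)
      exact Finset.card_image_le
    exact_mod_cast h1.trans h2
  refine hcount.trans ?_
  -- the inner sums
  have hinner : ∀ s ∈ Icc 1 S0, ∀ u ∈ Ioc U0 Y,
      ∑ q ∈ II (s ^ 2 * u), ((TT n X s u q.1 q.2).card : ℝ) ≤
      C4 * (n : ℝ) ^ (3 / 2 : ℝ) * Z * X * (u : ℝ) ^ (-(5 / 4) : ℝ) +
        2 * Cη * ((S0 : ℝ) ^ 2 * Y) * ((S0 : ℝ) ^ 2 * (Y : ℝ) ^ 2) ^ δ := by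
    intro s hs u hu
    obtain ⟨hs1, hs2⟩ := Finset.mem_Icc.1 hs
    obtain ⟨hu1, hu2⟩ := Finset.mem_Ioc.1 hu
    have hs0' : (1 : ℝ) ≤ s := by exact_mod_cast hs1
    have hs2' : (s : ℝ) ≤ S0 := by exact_mod_cast hs2
    have hu0 : 0 < u := by omega
    have hu0' : (0 : ℝ) < u := by exact_mod_cast hu0
    have hu2' : (u : ℝ) ≤ Y := by exact_mod_cast hu2
    have h5 : ∀ q ∈ II (s ^ 2 * u), ((TT n X s u q.1 q.2).card : ℝ) ≤
        C4 * (n : ℝ) ^ (3 / 2 : ℝ) * X / (s ^ 2 * u) * ((u : ℝ) ^ (-(3 / 4) : ℝ)) *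
          (q.2 : ℝ) ^ (-(3 / 4) : ℝ) + Cη * ((S0 : ℝ) ^ 2 * (Y : ℝ) ^ 2) ^ δ := by
      intro q hq
      have hq' := Finset.mem_product.1 (Finset.mem_filter.1 hq).1
      have hq2 : (q.2 : ℝ) ≤ (s : ℝ) ^ 2 * u := by exact_mod_cast (Finset.mem_Icc.1 hq'.2).2
      refine (TT_card hn hC4 hCη hδ h4 hh X s u q.1 q.2).trans ?_
      apply add_le_add
      · exact le_of_eq (by ring)
      · apply mul_le_mul_of_nonneg_left _ (by positivity)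
        apply Real.rpow_le_rpow (by positivity) _ hδ.le
        calc (u : ℝ) * q.2 ≤ u * ((s : ℝ) ^ 2 * u) := mul_le_mul_of_nonneg_left hq2 hu0'.le
          _ = (s : ℝ) ^ 2 * (u : ℝ) ^ 2 := by ring
          _ ≤ (S0 : ℝ) ^ 2 * (Y : ℝ) ^ 2 := by gcongr
    refine (Finset.sum_le_sum h5).trans ?_
    rw [Finset.sum_add_distrib, ← Finset.mul_sum, Finset.sum_const, nsmul_eq_mul]
    apply add_le_add
    · have h6 := II_sum (s ^ 2 * u)
      have h7 : Real.sqrt ((s ^ 2 * u : ℕ) : ℝ) = s * Real.sqrt u := by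
        push_cast
        rw [Real.sqrt_mul (by positivity), Real.sqrt_sq (by linarith)]
      rw [h7] at h6
      calc C4 * (n : ℝ) ^ (3 / 2 : ℝ) * X / (s ^ 2 * u) * ((u : ℝ) ^ (-(3 / 4) : ℝ)) *
            ∑ q ∈ II (s ^ 2 * u), (q.2 : ℝ) ^ (-(3 / 4) : ℝ)
          ≤ C4 * (n : ℝ) ^ (3 / 2 : ℝ) * X / (s ^ 2 * u) * ((u : ℝ) ^ (-(3 / 4) : ℝ)) *
            (s * Real.sqrt u * Z) := mul_le_mul_of_nonneg_left h6 (by positivity)
        _ = C4 * (n : ℝ) ^ (3 / 2 : ℝ) * Z * X * (u : ℝ) ^ (-(5 / 4) : ℝ) / s := by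
            have h8 : (u : ℝ) ^ (-(5 / 4) : ℝ) =
                (u : ℝ) ^ (-(3 / 4) : ℝ) * Real.sqrt u / u := by
              rw [Real.sqrt_eq_rpow, ← Real.rpow_add hu0', ← Real.rpow_sub_one hu0'.ne']
              norm_num
            rw [h8]
            field_simp
        _ ≤ C4 * (n : ℝ) ^ (3 / 2 : ℝ) * Z * X * (u : ℝ) ^ (-(5 / 4) : ℝ) :=
            div_le_self (by positivity) hs0'
    · have h6 := II_card (s ^ 2 * u)
      calc ((II (s ^ 2 * u)).card : ℝ) * (Cη * ((S0 : ℝ) ^ 2 * (Y : ℝ) ^ 2) ^ δ)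
          ≤ (2 * ((s ^ 2 * u : ℕ) : ℝ)) * (Cη * ((S0 : ℝ) ^ 2 * (Y : ℝ) ^ 2) ^ δ) :=
            mul_le_mul_of_nonneg_right h6 (by positivity)
        _ ≤ (2 * ((S0 : ℝ) ^ 2 * Y)) * (Cη * ((S0 : ℝ) ^ 2 * (Y : ℝ) ^ 2) ^ δ) := by
            apply mul_le_mul_of_nonneg_right _ (by positivity)
            push_cast
            gcongr
        _ = _ := by ring
  refine (Finset.sum_le_sum fun s hs => Finset.sum_le_sum fun u hu => hinner s hs u hu).trans ?_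
  rw [Finset.sum_const, Nat.card_Icc, Nat.add_sub_cancel, nsmul_eq_mul, Finset.sum_add_distrib,
    ← Finset.mul_sum, Finset.sum_const, nsmul_eq_mul, mul_add]
  have hA : (S0 : ℝ) * (C4 * (n : ℝ) ^ (3 / 2 : ℝ) * Z * X *
      ∑ u ∈ Ioc U0 Y, (u : ℝ) ^ (-(5 / 4) : ℝ)) ≤ ε / 2 * X := by
    calc (S0 : ℝ) * (C4 * (n : ℝ) ^ (3 / 2 : ℝ) * Z * X *
          ∑ u ∈ Ioc U0 Y, (u : ℝ) ^ (-(5 / 4) : ℝ))
        = K1 * X * ∑ u ∈ Ioc U0 Y, (u : ℝ) ^ (-(5 / 4) : ℝ) := by rw [hK1]; ring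
      _ ≤ K1 * X * (ε / (2 * (K1 + 1))) := mul_le_mul_of_nonneg_left (hU0 Y) (by positivity)
      _ = ε / 2 * X * (K1 / (K1 + 1)) := by field_simp
      _ ≤ ε / 2 * X * 1 := by
          apply mul_le_mul_of_nonneg_left _ (by positivity)
          rw [div_le_one (by linarith)]
          linarith
      _ = ε / 2 * X := mul_one _
  have hB : (S0 : ℝ) * (((Ioc U0 Y).card : ℝ) * (2 * Cη * ((S0 : ℝ) ^ 2 * Y) *
      ((S0 : ℝ) ^ 2 * (Y : ℝ) ^ 2) ^ δ)) ≤ ε / 2 * X := by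
    have h9 : ((Ioc U0 Y).card : ℝ) ≤ Y := by
      rw [Nat.card_Ioc]
      exact_mod_cast Nat.sub_le Y U0
    have h10 : (Y : ℝ) ^ 2 * ((Y : ℝ) ^ 2) ^ δ ≤ (X : ℝ) ^ (1 - δ) := by
      have h11 : (Y : ℝ) ^ 2 ≤ (X : ℝ) ^ (1 - 2 * δ) := by
        calc (Y : ℝ) ^ 2 ≤ ((X : ℝ) ^ (1 / 2 - δ)) ^ 2 :=
              pow_le_pow_left₀ (Nat.cast_nonneg Y) hYle 2
          _ = (X : ℝ) ^ (1 - 2 * δ) := by
              rw [← Real.rpow_natCast, ← Real.rpow_mul hX0'.le]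
              congr 1
              push_cast
              ring
      calc (Y : ℝ) ^ 2 * ((Y : ℝ) ^ 2) ^ δ ≤ (X : ℝ) ^ (1 - 2 * δ) * ((X : ℝ) ^ (1 - 2 * δ)) ^ δ := by
            apply mul_le_mul h11 (Real.rpow_le_rpow (by positivity) h11 hδ.le) (by positivity)
              (by positivity)
        _ = (X : ℝ) ^ ((1 - 2 * δ) + (1 - 2 * δ) * δ) := by
            rw [← Real.rpow_mul hX0'.le, ← Real.rpow_add hX0']
        _ ≤ (X : ℝ) ^ (1 - δ) := by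
            apply Real.rpow_le_rpow_of_exponent_le hX1'
            nlinarith
    calc (S0 : ℝ) * (((Ioc U0 Y).card : ℝ) * (2 * Cη * ((S0 : ℝ) ^ 2 * Y) *
          ((S0 : ℝ) ^ 2 * (Y : ℝ) ^ 2) ^ δ))
        ≤ (S0 : ℝ) * ((Y : ℝ) * (2 * Cη * ((S0 : ℝ) ^ 2 * Y) *
          ((S0 : ℝ) ^ 2 * (Y : ℝ) ^ 2) ^ δ)) := by
          apply mul_le_mul_of_nonneg_left _ (Nat.cast_nonneg _)
          exact mul_le_mul_of_nonneg_right h9 (by positivity)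
      _ = K2 * ((Y : ℝ) ^ 2 * ((Y : ℝ) ^ 2) ^ δ) := by
          rw [Real.mul_rpow (by positivity) (by positivity), hK2]
          ring
      _ ≤ K2 * (X : ℝ) ^ (1 - δ) := mul_le_mul_of_nonneg_left h10 hK20
      _ ≤ ε / 2 * X := hX
  linarith

end Pool.Agent.Cohn
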