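import Pool.Agent.Cohn.Crt
import Pool.Agent.Cohn.Local

/-!
Residue counts for the middle range.
-/

set_option autoImplicit false

open Finset

namespace Pool.Agent.Cohn

/-- `n ^ |P|` is at most a constant times a small power of the product of `P`. -/
lemma pow_card_le {n : ℕ} (hn : 1 ≤ n) {η : ℝ} (hη : 0 < η) :
    ∃ C : ℝ, 1 ≤ C ∧ ∀ P : Finset ℕ, (∀ p ∈ P, 0 < p) →
      (n : ℝ) ^ P.card ≤ C * ((∏ p ∈ P, p : ℕ) : ℝ) ^ η := by
  have hn1 : (1 : ℝ) ≤ n := by exact_mod_cast hn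
  set K : ℕ := ⌈(n : ℝ) ^ (1 / η)⌉₊ with hK
  have hKn : (n : ℝ) ≤ (K : ℝ) ^ η := by
    have h1 : (n : ℝ) ^ (1 / η) ≤ K := Nat.le_ceil _
    calc (n : ℝ) = ((n : ℝ) ^ (1 / η)) ^ η := by
          rw [← Real.rpow_mul (by linarith), one_div, inv_mul_cancel₀ hη.ne', Real.rpow_one]
      _ ≤ (K : ℝ) ^ η := Real.rpow_le_rpow (by positivity) h1 hη.le
  refine ⟨(n : ℝ) ^ K, one_le_pow₀ hn1, fun P hP => ?_⟩
  have h2 : ∀ p ∈ P, (n : ℝ) ≤ (if p < K then (n : ℝ) else 1) * (p : ℝ) ^ η := by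
    intro p hp
    have hp1 : (1 : ℝ) ≤ p := by exact_mod_cast hP p hp
    have hpη : (1 : ℝ) ≤ (p : ℝ) ^ η := Real.one_le_rpow hp1 hη.le
    split_ifs with h
    · nlinarith
    · rw [one_mul]
      refine hKn.trans (Real.rpow_le_rpow (Nat.cast_nonneg _) ?_ hη.le)
      exact_mod_cast not_lt.1 h
  calc (n : ℝ) ^ P.card = ∏ p ∈ P, (n : ℝ) := by rw [Finset.prod_const]
    _ ≤ ∏ p ∈ P, (if p < K then (n : ℝ) else 1) * (p : ℝ) ^ η :=
        Finset.prod_le_prod (fun _ _ => by positivity) h2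
    _ = (∏ p ∈ P, (if p < K then (n : ℝ) else 1)) * ((∏ p ∈ P, p : ℕ) : ℝ) ^ η := by
        rw [Finset.prod_mul_distrib, Nat.cast_prod, Real.finsetProd_rpow]
        intro p _
        exact Nat.cast_nonneg p
    _ ≤ (n : ℝ) ^ K * ((∏ p ∈ P, p : ℕ) : ℝ) ^ η := by
        apply mul_le_mul_of_nonneg_right _ (by positivity)
        rw [← Finset.prod_filter, Finset.prod_const]
        apply pow_le_pow_right₀ hn1
        calc (P.filter fun p => p < K).card ≤ (range K).card := by
              apply Finset.card_le_card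
              intro p hp
              exact Finset.mem_range.2 (Finset.mem_filter.1 hp).2
          _ = K := Finset.card_range K

/-- The number of solutions of `(r k + 1) ^ n = 1` modulo `p`. -/
lemma roots_card {p n k : ℕ} (hp : p.Prime) (hn : 0 < n) (hk : ¬ p ∣ k) :
    ((range p).filter fun r => p ∣ (r * k + 1) ^ n - 1).card ≤ n := by
  classical
  have : Fact p.Prime := ⟨hp⟩
  have hkz : (k : ZMod p) ≠ 0 := fun h => hk ((ZMod.natCast_eq_zero_iff _ _).1 h)
  have h1 : ((range p).filter fun r => p ∣ (r * k + 1) ^ n - 1).card ≤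
      (Polynomial.nthRootsFinset n (1 : ZMod p)).card := by
    refine Finset.card_le_card_of_injOn (fun r => (r : ZMod p) * k + 1) ?_ ?_
    · intro r hr
      have hr' := (Finset.mem_filter.1 hr).2
      refine Finset.mem_coe.2 ((Polynomial.mem_nthRootsFinset hn 1).2 ?_)
      rw [← ZMod.natCast_eq_zero_iff, Nat.cast_sub (Nat.one_le_pow _ _ (Nat.succ_pos _))] at hr'
      push_cast at hr'
      exact sub_eq_zero.1 hr'
    · intro r hr r' hr' h
      have hr1 := Finset.mem_range.1 (Finset.mem_filter.1 hr).1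
      have hr2 := Finset.mem_range.1 (Finset.mem_filter.1 hr').1
      have h2 : (r : ZMod p) * k = r' * k := by
        simp only at h
        linear_combination h
      have h3 := mul_right_cancel₀ hkz h2
      rw [ZMod.natCast_eq_natCast_iff', Nat.mod_eq_of_lt hr1, Nat.mod_eq_of_lt hr2] at h3
      exact h3
  refine h1.trans ?_
  rw [Polynomial.nthRootsFinset_def]
  exact (Multiset.toFinset_card_le _).trans (Polynomial.card_nthRoots n 1)

/-- The primes of `u` not dividing `n`. -/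
def PF (n u : ℕ) : Finset ℕ := u.primeFactors.filter fun p => ¬ p ∣ n

lemma PF_prod {n u : ℕ} (hn : 0 < n) (hu : Squarefree u) :
    u ≤ (∏ p ∈ PF n u, p) * n ∧ (∏ p ∈ PF n u, p) ≤ u ∧ (∏ p ∈ PF n u, p) ∣ u := by
  have h1 := Nat.prod_primeFactors_of_squarefree hu
  have h2 : (∏ p ∈ u.primeFactors.filter (fun p => ¬ p ∣ n), p) *
      (∏ p ∈ u.primeFactors.filter (fun p => ¬ ¬ p ∣ n), p) = u := by
    rw [Finset.prod_filter_mul_prod_filter_not, h1]
  have h3 : (∏ p ∈ u.primeFactors.filter (fun p => ¬ ¬ p ∣ n), p) ∣ n := by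
    apply Finset.prod_primes_dvd
    · intro p hp
      exact (Nat.prime_of_mem_primeFactors (Finset.mem_filter.1 hp).1).prime
    · intro p hp
      exact not_not.1 (Finset.mem_filter.1 hp).2
  have h4 := Nat.le_of_dvd hn h3
  have h5 : (∏ p ∈ PF n u, p) ∣ u := by
    unfold PF
    exact ⟨_, h2.symm⟩
  refine ⟨?_, Nat.le_of_dvd (Nat.pos_of_ne_zero hu.ne_zero) h5, h5⟩
  calc u = (∏ p ∈ PF n u, p) * (∏ p ∈ u.primeFactors.filter (fun p => ¬ ¬ p ∣ n), p) := h2.symm
    _ ≤ (∏ p ∈ PF n u, p) * n := Nat.mul_le_mul_left _ h4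

/-- The number of `c ≤ L` for given data. -/
lemma sol_count {n m m' u s u' t L : ℕ} (hn : 0 < n)
    (hne : ∃ c, Sol n (1 + c * m) c m m' u s u' t) :
    ∃ P : Finset ℕ, (∀ p ∈ P, 0 < p) ∧ u * u' ≤ (∏ p ∈ P, p) * n ^ 2 ∧ (∏ p ∈ P, p) ≤ u * u' ∧
      ∀ F : ℕ → Prop, ∀ [DecidablePred F], (∀ c, F c → Sol n (1 + c * m) c m m' u s u' t) →
      ((Icc 1 L).filter F).card ≤ (L / (∏ p ∈ P, p) + 1) * n ^ P.card := by
  classical
  obtain ⟨c0, hc0⟩ := hne
  have hmpos : 0 < m := lt_trans hc0.hm' hc0.hmm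
  have hdvd : u ∣ m := by rw [← hc0.em]; exact Dvd.intro_left _ rfl
  have hdvd' : u' ∣ m' := by rw [← hc0.em']; exact Dvd.intro_left _ rfl
  have hcop : Nat.Coprime u u' := Nat.Coprime.coprime_dvd_left hdvd
    (Nat.Coprime.coprime_dvd_right hdvd' hc0.hco)
  obtain ⟨a1, a2, a3⟩ := PF_prod (n := n) hn hc0.hu
  obtain ⟨b1, b2, b3⟩ := PF_prod (n := n) hn hc0.hu'
  have hmem : ∀ {v p : ℕ}, p ∈ PF n v → p.Prime ∧ p ∣ v ∧ ¬ p ∣ n := by
    intro v p hp
    obtain ⟨h1, h2⟩ := Finset.mem_filter.1 hp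
    exact ⟨Nat.prime_of_mem_primeFactors h1, Nat.dvd_of_mem_primeFactors h1, h2⟩
  have hdis : Disjoint (PF n u) (PF n u') := by
    rw [Finset.disjoint_left]
    intro p hp hp'
    obtain ⟨h1, h2, -⟩ := hmem hp
    obtain ⟨-, h3, -⟩ := hmem hp'
    have := Nat.dvd_gcd h2 h3
    rw [hcop] at this
    exact h1.one_lt.ne' (Nat.dvd_one.1 this)
  have hprime : ∀ p ∈ PF n u ∪ PF n u', p.Prime := by
    intro p hp
    rcases Finset.mem_union.1 hp with h | h
    · exact (hmem h).1
    · exact (hmem h).1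
  have hprod : ∏ p ∈ PF n u ∪ PF n u', p = (∏ p ∈ PF n u, p) * ∏ p ∈ PF n u', p :=
    Finset.prod_union hdis
  refine ⟨PF n u ∪ PF n u', fun p hp => (hprime p hp).pos, ?_, ?_, ?_⟩
  · rw [hprod]
    calc u * u' ≤ ((∏ p ∈ PF n u, p) * n) * ((∏ p ∈ PF n u', p) * n) := Nat.mul_le_mul a1 b1
      _ = _ := by ring
  · rw [hprod]
    exact Nat.mul_le_mul a2 b2
  · intro F _ hF
    set R : ℕ → Finset ℕ := fun p => if p ∈ PF n u then
      (range p).filter (fun r => p ∣ (r * m' + 1) ^ n - 1) else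
      (range p).filter (fun r => p ∣ (r * m + 1) ^ n - 1) with hR
    have hred : ∀ p c k : ℕ, p ∣ (c * k + 1) ^ n - 1 → p ∣ (c % p * k + 1) ^ n - 1 := by
      intro p c k h
      have h1 : (c % p * k + 1) ^ n ≡ (c * k + 1) ^ n [MOD p] :=
        (((Nat.mod_modEq c p).mul_right k).add_right 1).pow n
      have h2 : (c * k + 1) ^ n ≡ 1 [MOD p] :=
        ((Nat.modEq_iff_dvd' (Nat.one_le_pow _ _ (Nat.succ_pos _))).2 h).symm
      exact (Nat.modEq_iff_dvd' (Nat.one_le_pow _ _ (Nat.succ_pos _))).1 (h1.trans h2).symm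
    have hsub : (Icc 1 L).filter F ⊆
        (Icc 1 L).filter fun c => ∀ p ∈ PF n u ∪ PF n u', c % p ∈ R p := by
      intro c hc
      obtain ⟨h1, h2⟩ := Finset.mem_filter.1 hc
      have hS := hF c h2
      refine Finset.mem_filter.2 ⟨h1, fun p hp => ?_⟩
      have hpp := hprime p hp
      simp only [hR]
      split_ifs with hpu
      · obtain ⟨h3, h4, h5⟩ := hmem hpu
        exact Finset.mem_filter.2 ⟨Finset.mem_range.2 (Nat.mod_lt _ hpp.pos),
          hred p c m' (hS.hp p h3 h5 h4).2⟩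
      · have hpu' : p ∈ PF n u' := (Finset.mem_union.1 hp).resolve_left hpu
        obtain ⟨h3, h4, h5⟩ := hmem hpu'
        exact Finset.mem_filter.2 ⟨Finset.mem_range.2 (Nat.mod_lt _ hpp.pos),
          hred p c m (hS.hp' p h3 h5 h4).2⟩
    have hcount := crt_count (PF n u ∪ PF n u') (fun p => p) (fun p hp => (hprime p hp).pos)
      (fun p hp p' hp' hne => (Nat.coprime_primes (hprime p hp) (hprime p' hp')).2 hne) R L
    refine (Finset.card_le_card hsub).trans (hcount.trans ?_)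
    apply Nat.mul_le_mul_left
    calc ∏ p ∈ PF n u ∪ PF n u', (R p).card ≤ ∏ p ∈ PF n u ∪ PF n u', n := by
          refine Finset.prod_le_prod' fun p hp => ?_
          have hpp := hprime p hp
          have hcm : ∀ q : ℕ, q.Prime → q ∣ m → q ∣ m' → False := by
            intro q hq h1 h2
            have := Nat.dvd_gcd h1 h2
            rw [hc0.hco] at this
            exact hq.one_lt.ne' (Nat.dvd_one.1 this)
          simp only [hR]
          split_ifs with hpu
          · refine roots_card hpp hn fun h => ?_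
            exact hcm p hpp ((hmem hpu).2.1.trans hdvd) h
          · have hpu' : p ∈ PF n u' := (Finset.mem_union.1 hp).resolve_left hpu
            refine roots_card hpp hn fun h => ?_
            exact hcm p hpp h ((hmem hpu').2.1.trans hdvd')
      _ = n ^ (PF n u ∪ PF n u').card := by rw [Finset.prod_const]

end Pool.Agent.Cohn
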