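import Pool.Agent.PC.PNTAP

/-!
Sums over a set of primes with a density: consequences of `theta_H(N) / N -> A`.
-/

set_option autoImplicit false

open Filter Topology Finset Asymptotics

namespace Pool.Agent.Cohn

variable (H : ℕ → Prop) [DecidablePred H]

/-- `∑ log p` over `p ≤ N` in `H`. -/
noncomputable def th (N : ℕ) : ℝ := ∑ p ∈ Ioc 0 N, if H p then Real.log p else 0

/-- `∑ log p / p` over `p ≤ N` in `H`. -/
noncomputable def S1 (N : ℕ) : ℝ := ∑ p ∈ Ioc 0 N, if H p then Real.log p / p else 0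

lemma S1_abel (N : ℕ) : S1 H N = th H N / N + ∑ k ∈ range N, th H k / (k * (k + 1)) := by
  induction N with
  | zero => simp [S1, th]
  | succ N ih =>
    have h1 : S1 H (N + 1) = S1 H N + (if H (N + 1) then Real.log (N + 1 : ℕ) / (N + 1 : ℕ) else 0) := by
      unfold S1
      rw [Finset.sum_Ioc_succ_top (Nat.zero_le N)]
    have h2 : th H (N + 1) = th H N + (if H (N + 1) then Real.log (N + 1 : ℕ) else 0) := by
      unfold th
      rw [Finset.sum_Ioc_succ_top (Nat.zero_le N)]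
    rw [h1, ih, Finset.sum_range_succ, h2]
    rcases Nat.eq_zero_or_pos N with rfl | hN
    · simp [th]
    · have hN' : (0 : ℝ) < N := by exact_mod_cast hN
      push_cast
      split_ifs
      · field_simp
        ring
      · field_simp
        ring

lemma harmonic_ratio :
    Tendsto (fun n : ℕ => (∑ k ∈ range n, (1 : ℝ) / (k + 1)) / Real.log n) atTop (𝓝 1) := by
  have h1 := Real.tendsto_harmonic_sub_log
  have hlog : Tendsto (fun n : ℕ => Real.log n) atTop atTop :=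
    Real.tendsto_log_atTop.comp tendsto_natCast_atTop_atTop
  have h2 : Tendsto (fun n : ℕ => ((harmonic n : ℝ) - Real.log n) / Real.log n) atTop (𝓝 0) :=
    h1.div_atTop hlog
  have h3 := h2.add_const 1
  rw [zero_add] at h3
  refine h3.congr' ?_
  filter_upwards [hlog.eventually_gt_atTop 0] with n hn
  have h4 : ∑ k ∈ range n, (1 : ℝ) / (k + 1) = (harmonic n : ℝ) := by
    unfold harmonic
    push_cast
    exact Finset.sum_congr rfl fun k _ => by rw [one_div]
  rw [h4]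
  field_simp
  ring

variable {H}

lemma S1_tendsto {A : ℝ} (hlim : Tendsto (fun N : ℕ => th H N / N) atTop (𝓝 A)) :
    Tendsto (fun N : ℕ => S1 H N / Real.log N) atTop (𝓝 A) := by
  have hlog : Tendsto (fun n : ℕ => Real.log n) atTop atTop :=
    Real.tendsto_log_atTop.comp tendsto_natCast_atTop_atTop
  -- the main sum
  have hg : (fun k : ℕ => (th H k / k - A) / (k + 1)) =o[atTop] fun k : ℕ => (1 : ℝ) / (k + 1) := by
    have h1 : (fun k : ℕ => th H k / k - A) =o[atTop] fun _ : ℕ => (1 : ℝ) := by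
      rw [isLittleO_one_iff]
      have := hlim.sub_const A
      rwa [sub_self] at this
    have h2 := h1.mul_isBigO (isBigO_refl (fun k : ℕ => (1 : ℝ) / (k + 1)) atTop)
    refine h2.congr (fun k => ?_) (fun k => ?_)
    · rw [mul_one_div]
    · rw [one_mul]
  have hdiv : Tendsto (fun n : ℕ => ∑ k ∈ range n, (1 : ℝ) / (k + 1)) atTop atTop := by
    have h3 := harmonic_ratio
    have h4 : Tendsto (fun n : ℕ => (∑ k ∈ range n, (1 : ℝ) / (k + 1)) / Real.log n * Real.log n)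
        atTop atTop := h3.pos_mul_atTop one_pos hlog
    refine h4.congr' ?_
    filter_upwards [hlog.eventually_gt_atTop 0] with n hn
    field_simp
  have hs := hg.sum_range (fun k => by positivity) hdiv
  have hs2 : Tendsto (fun n : ℕ => (∑ k ∈ range n, (th H k / k - A) / (k + 1)) /
      (∑ k ∈ range n, (1 : ℝ) / (k + 1))) atTop (𝓝 0) := hs.tendsto_div_nhds_zero
  have hs3 := hs2.mul harmonic_ratio
  rw [zero_mul] at hs3
  have hs4 : Tendsto (fun n : ℕ => (∑ k ∈ range n, (th H k / k - A) / (k + 1)) / Real.log n)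
      atTop (𝓝 0) := by
    refine hs3.congr' ?_
    filter_upwards [hdiv.eventually_gt_atTop 0] with n hn
    field_simp
  have h5 : Tendsto (fun N : ℕ => th H N / N / Real.log N) atTop (𝓝 0) := hlim.div_atTop hlog
  have h6 := (h5.add hs4).add (harmonic_ratio.const_mul A)
  rw [zero_add, zero_add, mul_one] at h6
  refine h6.congr fun N => ?_
  rw [S1_abel, ← add_div, mul_div_assoc', ← add_div]
  congr 1
  rw [add_assoc]
  congr 1
  rw [Finset.mul_sum, ← Finset.sum_add_distrib]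
  refine Finset.sum_congr rfl fun k _ => ?_
  rcases Nat.eq_zero_or_pos k with rfl | hk
  · simp
  · have hk' : (0 : ℝ) < k := by exact_mod_cast hk
    field_simp
    ring

/-- The cut at `X ^ t`. -/
lemma S1_pow_tendsto {A : ℝ} (hlim : Tendsto (fun N : ℕ => th H N / N) atTop (𝓝 A)) {t : ℝ}
    (ht : 0 ≤ t) (h1 : ¬ H 1) :
    Tendsto (fun X : ℕ => S1 H ⌊(X : ℝ) ^ t⌋₊ / Real.log X) atTop (𝓝 (A * t)) := by
  rcases eq_or_lt_of_le ht with rfl | ht
  · have h2 : S1 H 1 = 0 := by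
      unfold S1
      simp [h1]
    simp [h2]
  · have hlog : Tendsto (fun n : ℕ => Real.log n) atTop atTop :=
      Real.tendsto_log_atTop.comp tendsto_natCast_atTop_atTop
    have hpow : Tendsto (fun X : ℕ => (X : ℝ) ^ t) atTop atTop :=
      (tendsto_rpow_atTop ht).comp tendsto_natCast_atTop_atTop
    have hfl : Tendsto (fun X : ℕ => ⌊(X : ℝ) ^ t⌋₊) atTop atTop := tendsto_nat_floor_atTop.comp hpow
    have h3 := (S1_tendsto hlim).comp hfl
    -- the ratio of the logarithms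
    have h4 : Tendsto (fun X : ℕ => Real.log ⌊(X : ℝ) ^ t⌋₊ / Real.log X) atTop (𝓝 t) := by
      have lo : Tendsto (fun X : ℕ => t - Real.log 2 / Real.log X) atTop (𝓝 t) := by
        have := (tendsto_const_nhds (x := Real.log 2)).div_atTop hlog
        have h5 := (tendsto_const_nhds (x := t)).sub this
        rwa [sub_zero] at h5
      refine tendsto_of_tendsto_of_tendsto_of_le_of_le' lo tendsto_const_nhds ?_ ?_
      · filter_upwards [hlog.eventually_gt_atTop 0, hpow.eventually_ge_atTop 2,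
          eventually_ge_atTop 1] with X hX hX2 hX1
        have hX0 : (0 : ℝ) < X := by exact_mod_cast hX1
        have h6 : (X : ℝ) ^ t / 2 ≤ ⌊(X : ℝ) ^ t⌋₊ := by
          have := Nat.lt_floor_add_one ((X : ℝ) ^ t)
          linarith
        have h7 : Real.log ((X : ℝ) ^ t / 2) ≤ Real.log ⌊(X : ℝ) ^ t⌋₊ :=
          Real.log_le_log (by linarith) h6
        rw [Real.log_div (by linarith) (by norm_num), Real.log_rpow hX0] at h7
        rw [le_div_iff₀ hX, sub_mul, div_mul_cancel₀ _ hX.ne']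
        exact h7
      · filter_upwards [hlog.eventually_gt_atTop 0, hpow.eventually_ge_atTop 2,
          eventually_ge_atTop 1] with X hX hX2 hX1
        have hX0 : (0 : ℝ) < X := by exact_mod_cast hX1
        rw [div_le_iff₀ hX, ← Real.log_rpow hX0]
        have h8 : (0 : ℝ) < ⌊(X : ℝ) ^ t⌋₊ := by
          have : 0 < ⌊(X : ℝ) ^ t⌋₊ := Nat.floor_pos.2 (by linarith)
          exact_mod_cast this
        exact Real.log_le_log h8 (Nat.floor_le (by positivity))
    have h5 := h3.mul h4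
    refine h5.congr' ?_
    filter_upwards [(hlog.comp hfl).eventually_gt_atTop 0] with X hX
    simp only [Function.comp] at hX ⊢
    field_simp

/-- Splitting of an interval. -/
lemma sum_split (e : ℕ → ℕ) (he : ∀ j, e j ≤ e (j + 1)) (f : ℕ → ℝ) (J : ℕ) :
    ∑ p ∈ Ioc (e 0) (e J), f p = ∑ j ∈ range J, ∑ p ∈ Ioc (e j) (e (j + 1)), f p := by
  induction J with
  | zero => simp
  | succ J ih =>
    rw [Finset.sum_range_succ, ← ih, Finset.sum_Ioc_consecutive f
      (monotone_nat_of_le_succ he (Nat.zero_le J)) (he J)]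

lemma part_bound {A : ℝ} (hlim : Tendsto (fun N : ℕ => th H N / N) atTop (𝓝 A)) (h1 : ¬ H 1)
    (τ : ℕ → ℝ) (hτ0 : 0 ≤ τ 0) (hτ : ∀ j, τ j ≤ τ (j + 1)) (M : ℕ → ℝ) (g : ℕ → ℕ → ℝ) (J : ℕ)
    (hg : ∀ j < J, ∀ᶠ X : ℕ in atTop, ∀ p ∈ Ioc ⌊(X : ℝ) ^ τ j⌋₊ ⌊(X : ℝ) ^ τ (j + 1)⌋₊, H p →
      g X p ≤ M j * (Real.log p / p) / Real.log X) {ε : ℝ} (hε : 0 < ε) :
    ∀ᶠ X : ℕ in atTop, ∑ p ∈ Ioc ⌊(X : ℝ) ^ τ 0⌋₊ ⌊(X : ℝ) ^ τ J⌋₊, (if H p then g X p else 0) ≤
      A * ∑ j ∈ range J, M j * (τ (j + 1) - τ j) + ε := by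
  have hτn : ∀ j, 0 ≤ τ j := fun j => by
    have := monotone_nat_of_le_succ hτ (Nat.zero_le j)
    linarith
  have ht : Tendsto (fun X : ℕ => ∑ j ∈ range J, M j * (S1 H ⌊(X : ℝ) ^ τ (j + 1)⌋₊ / Real.log X -
      S1 H ⌊(X : ℝ) ^ τ j⌋₊ / Real.log X)) atTop
      (𝓝 (∑ j ∈ range J, M j * (A * τ (j + 1) - A * τ j))) := by
    refine tendsto_finsetSum _ fun j _ => ?_
    exact ((S1_pow_tendsto hlim (hτn _) h1).sub (S1_pow_tendsto hlim (hτn _) h1)).const_mul _
  have he : ∑ j ∈ range J, M j * (A * τ (j + 1) - A * τ j) =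
      A * ∑ j ∈ range J, M j * (τ (j + 1) - τ j) := by
    rw [Finset.mul_sum]
    exact Finset.sum_congr rfl fun j _ => by ring
  rw [he] at ht
  have hev : ∀ᶠ X : ℕ in atTop, ∀ j ∈ range J,
      ∀ p ∈ Ioc ⌊(X : ℝ) ^ τ j⌋₊ ⌊(X : ℝ) ^ τ (j + 1)⌋₊, H p →
      g X p ≤ M j * (Real.log p / p) / Real.log X := by
    rw [Filter.eventually_all_finset]
    intro j hj
    exact hg j (Finset.mem_range.1 hj)
  filter_upwards [ht.eventually (ge_mem_nhds (lt_add_of_pos_right _ hε)), hev,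
    eventually_ge_atTop 1] with X hX hX2 hX1
  have hX1' : (1 : ℝ) ≤ X := by exact_mod_cast hX1
  refine le_trans ?_ hX
  have hmono : ∀ j, ⌊(X : ℝ) ^ τ j⌋₊ ≤ ⌊(X : ℝ) ^ τ (j + 1)⌋₊ := fun j =>
    Nat.floor_mono (Real.rpow_le_rpow_of_exponent_le hX1' (hτ j))
  rw [sum_split (fun j => ⌊(X : ℝ) ^ τ j⌋₊) hmono]
  refine Finset.sum_le_sum fun j hj => ?_
  have hS : S1 H ⌊(X : ℝ) ^ τ (j + 1)⌋₊ - S1 H ⌊(X : ℝ) ^ τ j⌋₊ =
      ∑ p ∈ Ioc ⌊(X : ℝ) ^ τ j⌋₊ ⌊(X : ℝ) ^ τ (j + 1)⌋₊, if H p then Real.log p / p else 0 := by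
    unfold S1
    rw [← Finset.sum_Ioc_consecutive _ (Nat.zero_le _) (hmono j)]
    ring
  rw [← sub_div, hS, mul_div_assoc', Finset.mul_sum, Finset.sum_div]
  refine Finset.sum_le_sum fun p hp => ?_
  split_ifs with hH
  · exact hX2 j hj p hp hH
  · simp

/-- `∑ 1 / p` over `X ^ θ < p ≤ X`. -/
lemma T0_bound {A : ℝ} (hlim : Tendsto (fun N : ℕ => th H N / N) atTop (𝓝 A)) (h1 : ¬ H 1)
    {θ : ℝ} (h0 : 0 < θ) (hθ1 : θ < 1) {ε : ℝ} (hε : 0 < ε) :
    ∀ᶠ X : ℕ in atTop, ∑ p ∈ Ioc ⌊(X : ℝ) ^ θ⌋₊ X, (if H p then (1 : ℝ) / p else 0) ≤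
      A * Real.log (1 / θ) + ε := by
  -- geometric partition with ratio `ρ`
  have hlogθ : 0 < Real.log (1 / θ) := Real.log_pos (by rw [lt_div_iff₀ h0]; linarith)
  have hJ : Tendsto (fun J : ℕ => A * (J * (Real.exp (Real.log (1 / θ) / J) - 1))) atTop
      (𝓝 (A * Real.log (1 / θ))) := by
    refine Tendsto.const_mul _ ?_
    have hd : HasDerivAt Real.exp (Real.exp 0) 0 := Real.hasDerivAt_exp 0
    rw [Real.exp_zero, hasDerivAt_iff_tendsto_slope] at hd
    have hseq : Tendsto (fun J : ℕ => Real.log (1 / θ) / J) atTop (𝓝[≠] 0) := by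
      rw [tendsto_nhdsWithin_iff]
      refine ⟨tendsto_const_nhds.div_atTop tendsto_natCast_atTop_atTop, ?_⟩
      filter_upwards [eventually_ge_atTop 1] with J hJ
      have : (0 : ℝ) < J := by exact_mod_cast hJ
      exact (div_pos hlogθ this).ne'
    have h2 := (hd.comp hseq).const_mul (Real.log (1 / θ))
    rw [mul_one] at h2
    refine h2.congr' ?_
    filter_upwards [eventually_ge_atTop 1] with J hJ
    have hJ0 : (0 : ℝ) < J := by exact_mod_cast hJ
    simp only [Function.comp, slope_def_field, sub_zero, Real.exp_zero]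
    field_simp
  obtain ⟨J, hJ1, hJ2⟩ := ((hJ.eventually (gt_mem_nhds (lt_add_of_pos_right
    (A * Real.log (1 / θ)) (half_pos hε)))).and (eventually_ge_atTop 1)).exists
  have hJ0 : (0 : ℝ) < J := by exact_mod_cast hJ2
  set ρ : ℝ := Real.exp (Real.log (1 / θ) / J) with hρ
  have hρ1 : 1 ≤ ρ := Real.one_le_exp (by positivity)
  have hρJ : ρ ^ J = 1 / θ := by
    rw [hρ, ← Real.exp_nat_mul, mul_div_cancel₀ _ hJ0.ne', Real.exp_log (by positivity)]
  have hτ : ∀ j : ℕ, θ * ρ ^ j ≤ θ * ρ ^ (j + 1) := fun j =>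
    mul_le_mul_of_nonneg_left (pow_le_pow_right₀ hρ1 (Nat.le_succ j)) h0.le
  have hb := part_bound hlim h1 (fun j => θ * ρ ^ j) (by positivity) hτ
    (fun j => 1 / (θ * ρ ^ j)) (fun _ p => 1 / (p : ℝ)) J ?_ (half_pos hε)
  · filter_upwards [hb] with X hX
    have e1 : θ * ρ ^ J = 1 := by rw [hρJ]; field_simp
    have e2 : A * ∑ j ∈ range J, 1 / (θ * ρ ^ j) * (θ * ρ ^ (j + 1) - θ * ρ ^ j) =
        A * (J * (ρ - 1)) := by
      congr 1
      have : ∀ j ∈ range J, 1 / (θ * ρ ^ j) * (θ * ρ ^ (j + 1) - θ * ρ ^ j) = ρ - 1 := by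
        intro j _
        have hρ0 : 0 < ρ ^ j := by positivity
        rw [pow_succ]
        field_simp
      rw [Finset.sum_congr rfl this, Finset.sum_const, Finset.card_range, nsmul_eq_mul]
    rw [e1, e2, pow_zero, mul_one, Real.rpow_one, Nat.floor_natCast] at hX
    linarith
  · intro j _
    filter_upwards [eventually_gt_atTop 1] with X hX1 p hp hH
    have hX1' : (1 : ℝ) < X := by exact_mod_cast hX1
    rw [Finset.mem_Ioc] at hp
    have hlX : 0 < Real.log X := Real.log_pos hX1'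
    have hτ0 : 0 < θ * ρ ^ j := by positivity
    have h3 : (X : ℝ) ^ (θ * ρ ^ j) < p := Nat.lt_of_floor_lt hp.1
    have hp0 : (0 : ℝ) < p := lt_trans (by positivity) h3
    have h4 : θ * ρ ^ j * Real.log X ≤ Real.log p := by
      rw [← Real.log_rpow (by linarith)]
      exact Real.log_le_log (by positivity) h3.le
    rw [le_div_iff₀ hlX, div_mul_eq_mul_div, one_mul, div_mul_div_comm, one_mul,
      div_le_div_iff₀ hp0 (by positivity)]
    nlinarith

lemma sum_gauss (J : ℕ) : ∑ j ∈ range J, ((j : ℝ) + 1) = J * (J + 1) / 2 := by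
  induction J with
  | zero => simp
  | succ J ih =>
    rw [Finset.sum_range_succ, ih]
    push_cast
    ring

/-- `∑ (log p) ^ 2 / p` over `p ≤ X ^ θ`. -/
lemma T2_bound {A : ℝ} (hlim : Tendsto (fun N : ℕ => th H N / N) atTop (𝓝 A)) (h1 : ¬ H 1)
    {θ : ℝ} (h0 : 0 < θ) {ε : ℝ} (hε : 0 < ε) :
    ∀ᶠ X : ℕ in atTop, ∑ p ∈ Ioc 0 ⌊(X : ℝ) ^ θ⌋₊,
      (if H p then (Real.log p) ^ 2 / p / (Real.log X) ^ 2 else 0) ≤ A * (θ ^ 2 / 2) + ε := by
  have hJ : Tendsto (fun J : ℕ => A * (θ ^ 2 / 2) + A * (θ ^ 2 / 2) / J) atTop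
      (𝓝 (A * (θ ^ 2 / 2) + 0)) :=
    tendsto_const_nhds.add (tendsto_const_nhds.div_atTop tendsto_natCast_atTop_atTop)
  rw [add_zero] at hJ
  obtain ⟨J, hJ1, hJ2⟩ := ((hJ.eventually (gt_mem_nhds (lt_add_of_pos_right
    (A * (θ ^ 2 / 2)) (half_pos hε)))).and (eventually_ge_atTop 1)).exists
  have hJ0 : (0 : ℝ) < J := by exact_mod_cast hJ2
  have hb := part_bound hlim h1 (fun j => θ * j / J) (by positivity)
    (fun j => by
      have : θ * j / J ≤ θ * (j + 1 : ℕ) / J := by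
        apply div_le_div_of_nonneg_right _ hJ0.le
        push_cast
        nlinarith
      exact this)
    (fun j => θ * (j + 1) / J) (fun X p => (Real.log p) ^ 2 / p / (Real.log X) ^ 2) J ?_
    (half_pos hε)
  · filter_upwards [hb, eventually_ge_atTop 1] with X hX hX1
    have e0 : ⌊(X : ℝ) ^ (θ * (0 : ℕ) / J)⌋₊ = 1 := by simp
    have e1 : θ * (J : ℝ) / J = θ := by field_simp
    have e2 : A * ∑ j ∈ range J, θ * (j + 1) / J * (θ * (j + 1 : ℕ) / J - θ * j / J) =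
        A * (θ ^ 2 / 2) + A * (θ ^ 2 / 2) / J := by
      have h3 : ∀ j ∈ range J, θ * (j + 1) / J * (θ * (j + 1 : ℕ) / J - θ * j / J) =
          (θ / J) ^ 2 * ((j : ℝ) + 1) := by
        intro j _
        push_cast
        field_simp
        ring
      rw [Finset.sum_congr rfl h3, ← Finset.mul_sum]
      rw [sum_gauss]
      field_simp
    have hX1' : (1 : ℝ) ≤ X := by exact_mod_cast hX1
    have e3 : 1 ≤ ⌊(X : ℝ) ^ θ⌋₊ := by
      rw [Nat.one_le_floor_iff]
      exact Real.one_le_rpow hX1' h0.le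
    rw [e0, e1, e2] at hX
    rw [← Finset.sum_Ioc_consecutive _ (Nat.zero_le 1) e3]
    have e4 : ∑ p ∈ Ioc 0 1, (if H p then (Real.log p) ^ 2 / p / (Real.log X) ^ 2 else 0) = 0 := by
      simp [h1]
    rw [e4, zero_add]
    linarith
  · intro j _
    filter_upwards [eventually_gt_atTop 1] with X hX1 p hp hH
    have hX1' : (1 : ℝ) < X := by exact_mod_cast hX1
    rw [Finset.mem_Ioc] at hp
    have hlX : 0 < Real.log X := Real.log_pos hX1'
    have hp1 : 0 < p := by omega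
    have hp0 : (0 : ℝ) < p := by exact_mod_cast hp1
    have h3 : (p : ℝ) ≤ (X : ℝ) ^ (θ * (j + 1 : ℕ) / J) :=
      (Nat.le_floor_iff (by positivity)).1 hp.2
    have h4 : Real.log p ≤ θ * (j + 1) / J * Real.log X := by
      have h5 := Real.log_le_log hp0 h3
      rw [Real.log_rpow (by linarith)] at h5
      push_cast at h5
      exact h5
    have h6 : 0 ≤ Real.log p := Real.log_nonneg (by exact_mod_cast hp1)
    have h7 : (Real.log p) ^ 2 / p / (Real.log X) ^ 2 =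
        Real.log p * (Real.log p / p) / (Real.log X) ^ 2 := by ring
    rw [h7, div_le_div_iff₀ (by positivity) hlX]
    have h8 : 0 ≤ Real.log p / p := by positivity
    calc Real.log p * (Real.log p / p) * Real.log X
        ≤ θ * (j + 1) / J * Real.log X * (Real.log p / p) * Real.log X :=
          mul_le_mul_of_nonneg_right (mul_le_mul_of_nonneg_right h4 h8) hlX.le
      _ = θ * (j + 1) / J * (Real.log p / p) * (Real.log X) ^ 2 := by ring

/-- `∑ log p / p` over `p ≤ X ^ θ`. -/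
lemma T1_bound {A : ℝ} (hlim : Tendsto (fun N : ℕ => th H N / N) atTop (𝓝 A)) (h1 : ¬ H 1)
    {θ : ℝ} (h0 : 0 < θ) {ε : ℝ} (hε : 0 < ε) :
    ∀ᶠ X : ℕ in atTop, ∑ p ∈ Ioc 0 ⌊(X : ℝ) ^ θ⌋₊,
      (if H p then Real.log p / p / Real.log X else 0) ≤ A * θ + ε := by
  filter_upwards [(S1_pow_tendsto hlim h0.le h1).eventually
    (ge_mem_nhds (lt_add_of_pos_right _ hε))] with X hX
  refine le_trans (le_of_eq ?_) hX
  unfold S1
  rw [Finset.sum_div]
  exact Finset.sum_congr rfl fun p _ => by split_ifs <;> simp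

/-- The sum of the reciprocals diverges. -/
lemma not_summable {A : ℝ} (hlim : Tendsto (fun N : ℕ => th H N / N) atTop (𝓝 A)) (h1 : ¬ H 1)
    (hA : 0 < A) : ¬ Summable fun p : ℕ => if H p then (1 : ℝ) / p else 0 := by
  intro hs
  -- small tails
  have hc := hs.hasSum.tendsto_sum_nat
  obtain ⟨N0, hN0⟩ := Metric.tendsto_atTop.1 hc (A / 16) (by linarith)
  have hpow : Tendsto (fun X : ℕ => ⌊(X : ℝ) ^ (1 / 2 : ℝ)⌋₊) atTop atTop :=
    tendsto_nat_floor_atTop.comp ((tendsto_rpow_atTop (by norm_num)).comp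
      tendsto_natCast_atTop_atTop)
  have ha := (S1_pow_tendsto hlim (t := 1) (by norm_num) h1).sub
    (S1_pow_tendsto hlim (t := 1 / 2) (by norm_num) h1)
  have ha' : (A * 1 - A * (1 / 2)) = A / 2 := by ring
  rw [ha'] at ha
  obtain ⟨X, hX1, hX2, hX3⟩ := ((ha.eventually (lt_mem_nhds (show A / 4 < A / 2 by linarith))).and
    ((hpow.eventually_ge_atTop N0).and (eventually_gt_atTop 1))).exists
  have hX3' : (1 : ℝ) < X := by exact_mod_cast hX3
  have hlX : 0 < Real.log X := Real.log_pos hX3'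
  rw [Real.rpow_one, Nat.floor_natCast, ← sub_div, lt_div_iff₀ hlX] at hX1
  have hle : ⌊(X : ℝ) ^ (1 / 2 : ℝ)⌋₊ ≤ X := by
    calc ⌊(X : ℝ) ^ (1 / 2 : ℝ)⌋₊ ≤ ⌊(X : ℝ) ^ (1 : ℝ)⌋₊ :=
          Nat.floor_mono (Real.rpow_le_rpow_of_exponent_le hX3'.le (by norm_num))
      _ = X := by rw [Real.rpow_one, Nat.floor_natCast]
  have hS : S1 H X - S1 H ⌊(X : ℝ) ^ (1 / 2 : ℝ)⌋₊ =
      ∑ p ∈ Ioc ⌊(X : ℝ) ^ (1 / 2 : ℝ)⌋₊ X, if H p then Real.log p / p else 0 := by
    unfold S1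
    rw [← Finset.sum_Ioc_consecutive _ (Nat.zero_le _) hle]
    ring
  have hS2 : ∑ p ∈ Ioc ⌊(X : ℝ) ^ (1 / 2 : ℝ)⌋₊ X, (if H p then Real.log p / p else 0) ≤
      Real.log X * ∑ p ∈ Ioc ⌊(X : ℝ) ^ (1 / 2 : ℝ)⌋₊ X, (if H p then (1 : ℝ) / p else 0) := by
    rw [Finset.mul_sum]
    refine Finset.sum_le_sum fun p hp => ?_
    rw [Finset.mem_Ioc] at hp
    split_ifs
    · have hp1 : 0 < p := by omega
      have hp0 : (0 : ℝ) < p := by exact_mod_cast hp1
      rw [mul_one_div]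
      exact div_le_div_of_nonneg_right (Real.log_le_log hp0 (by exact_mod_cast hp.2)) hp0.le
    · simp
  have hT : ∑ p ∈ Ioc ⌊(X : ℝ) ^ (1 / 2 : ℝ)⌋₊ X, (if H p then (1 : ℝ) / p else 0) ≤ A / 8 := by
    have d1 := hN0 (X + 1) (by omega)
    have d2 := hN0 (⌊(X : ℝ) ^ (1 / 2 : ℝ)⌋₊ + 1) (by omega)
    rw [Real.dist_eq] at d1 d2
    have e : ∑ p ∈ range (X + 1), (if H p then (1 : ℝ) / p else 0) =
        ∑ p ∈ range (⌊(X : ℝ) ^ (1 / 2 : ℝ)⌋₊ + 1), (if H p then (1 : ℝ) / p else 0) +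
        ∑ p ∈ Ioc ⌊(X : ℝ) ^ (1 / 2 : ℝ)⌋₊ X, (if H p then (1 : ℝ) / p else 0) := by
      rw [← Finset.sum_range_add_sum_Ico _ (Nat.succ_le_succ hle)]
      congr 1
      refine Finset.sum_congr ?_ fun _ _ => rfl
      ext k
      rw [Finset.mem_Ico, Finset.mem_Ioc]
      omega
    have e1 := abs_lt.1 d1
    have e2 := abs_lt.1 d2
    linarith [e1.1, e1.2, e2.1, e2.2]
  rw [hS] at hX1
  have h9 := mul_le_mul_of_nonneg_left hT hlX.le
  nlinarith

end Pool.Agent.Cohn
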